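import Mathlib

/-!
Newton's inequalities for the coefficients of a product of real linear factors with positive
coefficients (the induction of Hardy, Littlewood and Polya).
-/

set_option autoImplicit false

open Finset Polynomial

namespace Pool.Agent.MP_fe2d2a_anF

/-- The induction step of Newton's inequalities. -/
lemma newton_step {α β γ δ c s r m : ℝ} (hc : 0 ≤ c) (hs : 0 ≤ s) (hr : 1 ≤ r) (hm : 1 ≤ m)
    (h1 : α * γ ≤ β ^ 2) (h2 : β * δ ≤ γ ^ 2) (h3 : α * δ ≤ β * γ) :
    (c * (m + 1) * β + s * (r - 1) * α) * (c * (m - 1) * δ + s * (r + 1) * γ) ≤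
      (c * m * γ + s * r * β) ^ 2 := by
  have e : (c * m * γ + s * r * β) ^ 2 -
      (c * (m + 1) * β + s * (r - 1) * α) * (c * (m - 1) * δ + s * (r + 1) * γ) =
      (c * γ - s * β) ^ 2 + c ^ 2 * ((m - 1) * (m + 1)) * (γ ^ 2 - β * δ) +
        c * s * ((r - 1) * (m - 1)) * (β * γ - α * δ) +
        s ^ 2 * ((r - 1) * (r + 1)) * (β ^ 2 - α * γ) := by
    ring
  have k1 : 0 ≤ c ^ 2 * ((m - 1) * (m + 1)) * (γ ^ 2 - β * δ) :=
    mul_nonneg (mul_nonneg (sq_nonneg _) (mul_nonneg (by linarith) (by linarith))) (by linarith)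
  have k2 : 0 ≤ c * s * ((r - 1) * (m - 1)) * (β * γ - α * δ) :=
    mul_nonneg (mul_nonneg (mul_nonneg hc hs) (mul_nonneg (by linarith) (by linarith)))
      (by linarith)
  have k3 : 0 ≤ s ^ 2 * ((r - 1) * (r + 1)) * (β ^ 2 - α * γ) :=
    mul_nonneg (mul_nonneg (sq_nonneg _) (mul_nonneg (by linarith) (by linarith))) (by linarith)
  have k4 := sq_nonneg (c * γ - s * β)
  linarith

/-- A shifted log-concave sequence: `q (j + 1)` is positive for `j ≤ n`, everything else is zero. -/
structure LC (n : ℕ) (q : ℕ → ℝ) : Prop where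
  z : q 0 = 0
  pos : ∀ j, j ≤ n → 0 < q (j + 1)
  top : ∀ j, n < j → q (j + 1) = 0
  lc : ∀ j, q j * q (j + 2) ≤ q (j + 1) ^ 2

lemma LC.nonneg {n : ℕ} {q : ℕ → ℝ} (h : LC n q) (j : ℕ) : 0 ≤ q j := by
  rcases Nat.eq_zero_or_pos j with h0 | h0
  · rw [h0, h.z]
  · obtain ⟨i, rfl⟩ : ∃ i, j = i + 1 := ⟨j - 1, by omega⟩
    rcases Nat.lt_or_ge n i with h1 | h1
    · rw [h.top i h1]
    · exact (h.pos i h1).le

lemma LC.mix {n : ℕ} {q : ℕ → ℝ} (h : LC n q) (j : ℕ) : q j * q (j + 3) ≤ q (j + 1) * q (j + 2) := by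
  have hR : 0 ≤ q (j + 1) * q (j + 2) := mul_nonneg (h.nonneg _) (h.nonneg _)
  rcases Nat.lt_or_ge n (j + 2) with h1 | h1
  · rw [h.top (j + 2) h1, mul_zero]
    exact hR
  · have p1 := h.pos j (by omega)
    have p2 := h.pos (j + 1) (by omega)
    have l1 := h.lc j
    have l2 := h.lc (j + 1)
    have p2' : 0 < q (j + 2) := p2
    have l2' : q (j + 1) * q (j + 3) ≤ q (j + 2) ^ 2 := l2
    have n0 := h.nonneg j
    have n3 := h.nonneg (j + 3)
    have hm : (q j * q (j + 2)) * (q (j + 1) * q (j + 3)) ≤ q (j + 1) ^ 2 * q (j + 2) ^ 2 :=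
      mul_le_mul l1 l2' (mul_nonneg p1.le n3) (sq_nonneg _)
    have hp : 0 < q (j + 1) * q (j + 2) := mul_pos p1 p2'
    have e : (q (j + 1) * q (j + 2)) * (q j * q (j + 3)) ≤
        (q (j + 1) * q (j + 2)) * (q (j + 1) * q (j + 2)) := by
      calc (q (j + 1) * q (j + 2)) * (q j * q (j + 3)) =
          (q j * q (j + 2)) * (q (j + 1) * q (j + 3)) := by ring
        _ ≤ q (j + 1) ^ 2 * q (j + 2) ^ 2 := hm
        _ = (q (j + 1) * q (j + 2)) * (q (j + 1) * q (j + 2)) := by ring
    exact le_of_mul_le_mul_left e hp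

/-- The sequence for one more factor. -/
noncomputable def stepq (n : ℕ) (c s : ℝ) (q : ℕ → ℝ) : ℕ → ℝ
  | 0 => 0
  | i + 1 => (c * ((n : ℝ) + 1 - i) * q (i + 1) + s * i * q i) / ((n : ℝ) + 1)

lemma LC.step {n : ℕ} {q : ℕ → ℝ} (h : LC n q) {c s : ℝ} (hc : 0 < c) (hs : 0 < s) :
    LC (n + 1) (stepq n c s q) := by
  have hn : (0 : ℝ) < (n : ℝ) + 1 := by positivity
  refine ⟨rfl, ?_, ?_, ?_⟩
  · intro j hj
    rw [stepq]
    apply div_pos _ hn
    rcases Nat.eq_zero_or_pos j with h0 | h0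
    · subst h0
      have := h.pos 0 (Nat.zero_le _)
      simp only [Nat.cast_zero, sub_zero, mul_zero, zero_mul, add_zero]
      positivity
    · obtain ⟨i, rfl⟩ : ∃ i, j = i + 1 := ⟨j - 1, by omega⟩
      have p1 := h.pos i (by omega)
      have p2 := h.nonneg (i + 1 + 1)
      have h3 : (0 : ℝ) ≤ (n : ℝ) + 1 - ((i + 1 : ℕ) : ℝ) := by
        have : ((i + 1 : ℕ) : ℝ) ≤ ((n + 1 : ℕ) : ℝ) := by exact_mod_cast hj
        push_cast at this ⊢
        linarith
      have h4 : (0 : ℝ) < ((i + 1 : ℕ) : ℝ) := by positivity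
      have h5 : 0 ≤ c * ((n : ℝ) + 1 - ((i + 1 : ℕ) : ℝ)) * q (i + 1 + 1) :=
        mul_nonneg (mul_nonneg hc.le h3) p2
      have h6 : 0 < s * ((i + 1 : ℕ) : ℝ) * q (i + 1) := mul_pos (mul_pos hs h4) p1
      linarith
  · intro j hj
    rw [stepq, h.top j (by omega)]
    obtain ⟨i, rfl⟩ : ∃ i, j = i + 1 := ⟨j - 1, by omega⟩
    rw [h.top i (by omega)]
    simp
  · intro j
    rcases Nat.eq_zero_or_pos j with h0 | h0
    · subst h0
      have : stepq n c s q 0 = 0 := rfl
      rw [this, zero_mul]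
      exact sq_nonneg _
    · obtain ⟨i, rfl⟩ : ∃ i, j = i + 1 := ⟨j - 1, by omega⟩
      rcases Nat.lt_or_ge (n + 1) (i + 1 + 1) with h1 | h1
      · have e : stepq n c s q (i + 1 + 2) = 0 := by
          change (c * ((n : ℝ) + 1 - ((i + 1 + 1 : ℕ) : ℝ)) * q (i + 1 + 1 + 1) +
            s * ((i + 1 + 1 : ℕ) : ℝ) * q (i + 1 + 1)) / ((n : ℝ) + 1) = 0
          rw [h.top (i + 1 + 1) (by omega), h.top (i + 1) (by omega)]
          simp
        rw [e, mul_zero]
        exact sq_nonneg _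
      · have hm : (1 : ℝ) ≤ (n : ℝ) + 1 - ((i + 1 : ℕ) : ℝ) := by
          have : ((i + 1 + 1 : ℕ) : ℝ) ≤ ((n + 1 : ℕ) : ℝ) := by exact_mod_cast h1
          push_cast at this ⊢
          linarith
        have hr : (1 : ℝ) ≤ ((i + 1 : ℕ) : ℝ) := by
          push_cast
          have := Nat.cast_nonneg (α := ℝ) i
          linarith
        have k := newton_step (α := q i) (β := q (i + 1)) (γ := q (i + 2)) (δ := q (i + 3))
          hc.le hs.le hr hm (h.lc i) (h.lc (i + 1)) (h.mix i)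
        have e1 : stepq n c s q (i + 1) = (c * ((n : ℝ) + 1 - ((i + 1 : ℕ) : ℝ) + 1) * q (i + 1) +
            s * (((i + 1 : ℕ) : ℝ) - 1) * q i) / ((n : ℝ) + 1) := by
          rw [stepq]
          push_cast
          ring
        have e2 : stepq n c s q (i + 1 + 1) = (c * ((n : ℝ) + 1 - ((i + 1 : ℕ) : ℝ)) * q (i + 2) +
            s * ((i + 1 : ℕ) : ℝ) * q (i + 1)) / ((n : ℝ) + 1) := rfl
        have e3 : stepq n c s q (i + 1 + 2) =
            (c * ((n : ℝ) + 1 - ((i + 1 : ℕ) : ℝ) - 1) * q (i + 3) +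
            s * (((i + 1 : ℕ) : ℝ) + 1) * q (i + 2)) / ((n : ℝ) + 1) := by
          change (c * ((n : ℝ) + 1 - ((i + 1 + 1 : ℕ) : ℝ)) * q (i + 3) +
            s * ((i + 1 + 1 : ℕ) : ℝ) * q (i + 2)) / ((n : ℝ) + 1) = _
          push_cast
          ring
        rw [e1, e2, e3, div_mul_div_comm, div_pow, ← sq]
        exact div_le_div_of_nonneg_right k (sq_nonneg _)

variable {ι : Type*} [DecidableEq ι]

/-- The generating polynomial of the elementary symmetric functions. -/
noncomputable def EP (c s : ι → ℝ) (A : Finset ι) : ℝ[X] := ∏ k ∈ A, (C (c k) + C (s k) * X)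

lemma EP_insert (c s : ι → ℝ) {A : Finset ι} {k : ι} (hk : k ∉ A) :
    EP c s (insert k A) = (C (c k) + C (s k) * X) * EP c s A := by
  unfold EP
  rw [Finset.prod_insert hk]

lemma EP_coeff_zero_insert (c s : ι → ℝ) {A : Finset ι} {k : ι} (hk : k ∉ A) :
    (EP c s (insert k A)).coeff 0 = c k * (EP c s A).coeff 0 := by
  rw [EP_insert c s hk, mul_coeff_zero]
  simp

lemma EP_coeff_succ_insert (c s : ι → ℝ) {A : Finset ι} {k : ι} (hk : k ∉ A) (j : ℕ) :
    (EP c s (insert k A)).coeff (j + 1) =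
      c k * (EP c s A).coeff (j + 1) + s k * (EP c s A).coeff j := by
  rw [EP_insert c s hk, add_mul, coeff_add, coeff_C_mul, mul_assoc, coeff_C_mul, coeff_X_mul]

/-- Newton's inequalities. -/
lemma newton (c s : ι → ℝ) (A : Finset ι) (hc : ∀ k ∈ A, 0 < c k) (hs : ∀ k ∈ A, 0 < s k) :
    ∃ q : ℕ → ℝ, LC A.card q ∧ ∀ j, (EP c s A).coeff j = (A.card.choose j : ℝ) * q (j + 1) := by
  induction A using Finset.induction_on with
  | empty =>
    refine ⟨fun j => if j = 1 then 1 else 0, ⟨by simp, ?_, ?_, ?_⟩, ?_⟩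
    · intro j hj
      have : j = 0 := by simpa using hj
      simp [this]
    · intro j hj
      have : j ≠ 0 := by
        rintro rfl
        simp at hj
      simp [this]
    · intro j
      rcases Nat.eq_zero_or_pos j with h0 | h0
      · subst h0
        simp
      · simp [h0.ne']
    · intro j
      unfold EP
      rcases Nat.eq_zero_or_pos j with h0 | h0
      · subst h0
        simp
      · simp [coeff_one, h0.ne']
  | insert k A hk ih =>
    obtain ⟨q, hq, hE⟩ := ih (fun i hi => hc i (Finset.mem_insert_of_mem hi))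
      (fun i hi => hs i (Finset.mem_insert_of_mem hi))
    have hck := hc k (Finset.mem_insert_self k A)
    have hsk := hs k (Finset.mem_insert_self k A)
    refine ⟨stepq A.card (c k) (s k) q, ?_, ?_⟩
    · rw [Finset.card_insert_of_notMem hk]
      exact hq.step hck hsk
    · intro j
      rw [Finset.card_insert_of_notMem hk]
      have hn : ((A.card : ℝ) + 1) ≠ 0 := by positivity
      rcases Nat.eq_zero_or_pos j with h0 | h0
      · subst h0
        rw [EP_coeff_zero_insert c s hk, hE 0, stepq]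
        simp only [Nat.choose_zero_right, Nat.cast_one, Nat.cast_zero, sub_zero, mul_zero,
          zero_mul, add_zero, one_mul]
        field_simp
      · obtain ⟨i, rfl⟩ : ∃ i, j = i + 1 := ⟨j - 1, by omega⟩
        rw [EP_coeff_succ_insert c s hk, hE (i + 1), hE i, stepq]
        have c1 : ((A.card : ℝ) + 1) * (A.card.choose i : ℝ) =
            ((A.card + 1).choose (i + 1) : ℝ) * ((i + 1 : ℕ) : ℝ) := by
          have := Nat.add_one_mul_choose_eq A.card i
          exact_mod_cast this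
        have c2 : (A.card.choose (i + 1) : ℝ) * ((A.card : ℝ) + 1) =
            ((A.card + 1).choose (i + 1) : ℝ) * ((A.card : ℝ) + 1 - ((i + 1 : ℕ) : ℝ)) := by
          rcases Nat.lt_or_ge A.card i with h1 | h1
          · rw [Nat.choose_eq_zero_of_lt (by omega : A.card < i + 1),
              Nat.choose_eq_zero_of_lt (by omega : A.card + 1 < i + 1)]
            simp
          · have h2 := Nat.choose_mul_succ_eq A.card (i + 1)
            have h3 : ((A.card + 1 - (i + 1) : ℕ) : ℝ) =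
                (A.card : ℝ) + 1 - ((i + 1 : ℕ) : ℝ) := by
              rw [Nat.cast_sub (by omega)]
              push_cast
              ring
            rw [← h3]
            exact_mod_cast h2
        rw [mul_div_assoc', eq_div_iff hn]
        linear_combination (c k * q (i + 1 + 1)) * c2 + (s k * q (i + 1)) * c1

end Pool.Agent.MP_fe2d2a_anF
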