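import Mathlib
import Pool.Agent.Lib.MP_fe2d2a_anP.Mid
import Pool.Agent.Lib.MP_fe2d2a_anF.Newt

/-!
The polynomial with zeros on the unit circle as a sum of two squares `U ^ 2 + V ^ 2`, and the
derivatives of its coefficients under rotation as the coefficients of `2 (U' V - U V')`.
-/

set_option autoImplicit false

open Finset Polynomial

namespace Pool.Agent.MP_fe2d2a_anF

open Pool.Agent.MP_fe2d2a_anR Pool.Agent.MP_fe2d2a_anP

variable {ι : Type*} [DecidableEq ι]

/-- One linear factor. -/
noncomputable def fk (b : ι → ℝ) (k : ι) (x : ℝ) : ℂ :=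
  ((Real.cos (b k / 2) * (x - 1) : ℝ) : ℂ) + ((Real.sin (b k / 2) * (x + 1) : ℝ) : ℂ) * Complex.I

/-- Its derivative. -/
noncomputable def dk (b : ι → ℝ) (k : ι) : ℂ :=
  ((Real.cos (b k / 2) : ℝ) : ℂ) + ((Real.sin (b k / 2) : ℝ) : ℂ) * Complex.I

/-- The product of the linear factors. -/
noncomputable def FF (b : ι → ℝ) (A : Finset ι) (x : ℝ) : ℂ := ∏ k ∈ A, fk b k x

/-- Its derivative. -/
noncomputable def FD (b : ι → ℝ) (A : Finset ι) (x : ℝ) : ℂ :=
  ∑ k ∈ A, FF b (A.erase k) x * dk b k

omit [DecidableEq ι] in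
lemma normSq_fk (b : ι → ℝ) (k : ι) (x : ℝ) :
    Complex.normSq (fk b k x) = x ^ 2 - 2 * Real.cos (b k) * x + 1 := by
  rw [fk, Complex.normSq_add_mul_I]
  have h1 := Real.sin_sq_add_cos_sq (b k / 2)
  have h2 : Real.cos (b k) = 2 * Real.cos (b k / 2) ^ 2 - 1 := by
    rw [← Real.cos_two_mul]
    congr 1
    ring
  rw [h2]
  linear_combination (x + 1) ^ 2 * h1

omit [DecidableEq ι] in
lemma QP_eval (b : ι → ℝ) (A : Finset ι) (x : ℝ) :
    (QP (fun k => Real.cos (b k)) A).eval x = Complex.normSq (FF b A x) := by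
  unfold QP FF
  rw [eval_prod, map_prod]
  apply Finset.prod_congr rfl
  intro k _
  rw [normSq_fk]
  simp

omit [DecidableEq ι] in
lemma hasDerivAt_fk (b : ι → ℝ) (k : ι) (x : ℝ) : HasDerivAt (fk b k) (dk b k) x := by
  have h1 : HasDerivAt (fun x : ℝ => Real.cos (b k / 2) * (x - 1)) (Real.cos (b k / 2) * 1) x :=
    ((hasDerivAt_id x).sub_const 1).const_mul _
  have h2 : HasDerivAt (fun x : ℝ => Real.sin (b k / 2) * (x + 1)) (Real.sin (b k / 2) * 1) x :=
    ((hasDerivAt_id x).add_const 1).const_mul _
  have h3 := h1.ofReal_comp.add (h2.ofReal_comp.mul_const Complex.I)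
  rw [mul_one, mul_one] at h3
  exact h3

lemma hasDerivAt_FF (b : ι → ℝ) (A : Finset ι) (x : ℝ) : HasDerivAt (FF b A) (FD b A x) x := by
  have h := HasDerivAt.fun_finsetProd (u := A) (f := fun k => fk b k) (f' := fun k => dk b k)
    (x := x) (fun k _ => hasDerivAt_fk b k x)
  exact h

lemma wv_eval (b : ι → ℝ) (A : Finset ι) (x : ℝ) :
    ∑ k ∈ A, 2 * Real.sin (b k) * (QP (fun k => Real.cos (b k)) (A.erase k)).eval x =
      -2 * ((starRingEnd ℂ) (FF b A x) * FD b A x).im := by
  unfold FD
  rw [Finset.mul_sum, Complex.im_sum, Finset.mul_sum]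
  apply Finset.sum_congr rfl
  intro k hk
  have e : FF b A x = fk b k x * FF b (A.erase k) x := by
    unfold FF
    exact (Finset.mul_prod_erase A (fun k => fk b k x) hk).symm
  have h2 : Real.sin (b k) = 2 * Real.sin (b k / 2) * Real.cos (b k / 2) := by
    rw [← Real.sin_two_mul]
    congr 1
    ring
  rw [e, QP_eval, h2, map_mul]
  have e2 : (starRingEnd ℂ) (fk b k x) * (starRingEnd ℂ) (FF b (A.erase k) x) *
      (FF b (A.erase k) x * dk b k) =
      ((Complex.normSq (FF b (A.erase k) x) : ℝ) : ℂ) * ((starRingEnd ℂ) (fk b k x) * dk b k) := by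
    rw [← Complex.mul_conj]
    ring
  have e3 : ((starRingEnd ℂ) (fk b k x) * dk b k).im =
      -2 * (Real.sin (b k / 2) * Real.cos (b k / 2)) := by
    unfold fk dk
    generalize Real.cos (b k / 2) = c
    generalize Real.sin (b k / 2) = s
    simp
    ring
  rw [e2, Complex.im_ofReal_mul, e3]
  ring

/-- The frame: it is enough to know the real and imaginary part of the product. -/
lemma frame (b : ι → ℝ) (A : Finset ι) (U V : ℝ[X])
    (h : ∀ x : ℝ, FF b A x = ((U.eval x : ℝ) : ℂ) + ((V.eval x : ℝ) : ℂ) * Complex.I) :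
    QP (fun k => Real.cos (b k)) A = U ^ 2 + V ^ 2 ∧
      ∀ i, wv b A i = 2 * (derivative U * V - U * derivative V).coeff i := by
  refine ⟨?_, ?_⟩
  · apply Polynomial.funext
    intro x
    rw [QP_eval, h, Complex.normSq_add_mul_I]
    simp
  · have hd : ∀ x : ℝ, FD b A x = (((derivative U).eval x : ℝ) : ℂ) +
        (((derivative V).eval x : ℝ) : ℂ) * Complex.I := by
      intro x
      have h1 := hasDerivAt_FF b A x
      have h2 : HasDerivAt (FF b A) ((((derivative U).eval x : ℝ) : ℂ) +
          (((derivative V).eval x : ℝ) : ℂ) * Complex.I) x := by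
        have h3 := (U.hasDerivAt x).ofReal_comp.add ((V.hasDerivAt x).ofReal_comp.mul_const
          Complex.I)
        have h4 : FF b A = fun x : ℝ => ((U.eval x : ℝ) : ℂ) +
            ((V.eval x : ℝ) : ℂ) * Complex.I := funext h
        rw [h4]
        exact h3
      exact h1.unique h2
    have hp : ∑ k ∈ A, C (2 * Real.sin (b k)) * QP (fun k => Real.cos (b k)) (A.erase k) =
        C 2 * (derivative U * V - U * derivative V) := by
      apply Polynomial.funext
      intro x
      rw [eval_finsetSum]
      simp only [eval_mul, eval_C]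
      rw [wv_eval, hd, h]
      simp
      ring
    intro i
    have h5 := congrArg (fun p => p.coeff i) hp
    simp only [finsetSum_coeff, coeff_C_mul] at h5
    exact h5

/-- Homogenisation of the product of linear factors. -/
lemma prod_eq_sum (c s : ι → ℝ) (A : Finset ι) (u v : ℂ) :
    ∏ k ∈ A, ((c k : ℂ) * u + (s k : ℂ) * v) =
      ∑ j ∈ range (A.card + 1), ((EP c s A).coeff j : ℂ) * (u ^ (A.card - j) * v ^ j) := by
  induction A using Finset.induction_on with
  | empty => simp [EP]
  | insert k A hk ih =>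
    rw [Finset.prod_insert hk, ih, Finset.card_insert_of_notMem hk]
    have ht : (EP c s A).coeff (A.card + 1) = 0 := by
      apply coeff_eq_zero_of_natDegree_lt
      have : (EP c s A).natDegree ≤ A.card := by
        unfold EP
        apply (natDegree_prod_le _ _).trans
        calc ∑ i ∈ A, (C (c i) + C (s i) * X).natDegree ≤ ∑ i ∈ A, 1 := by
              apply Finset.sum_le_sum
              intro i _
              rw [add_comm]
              exact natDegree_linear_le
          _ = A.card := by simp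
      omega
    rw [Finset.sum_range_succ' _ (A.card + 1), EP_coeff_zero_insert c s hk]
    simp only [EP_coeff_succ_insert c s hk, Complex.ofReal_add, Complex.ofReal_mul, add_mul,
      Finset.sum_add_distrib, Nat.sub_zero, pow_zero, mul_one]
    have e1 : ∑ j ∈ range (A.card + 1), (c k : ℂ) * ((EP c s A).coeff (j + 1) : ℂ) *
        (u ^ (A.card + 1 - (j + 1)) * v ^ (j + 1)) + (c k : ℂ) * ((EP c s A).coeff 0 : ℂ) *
          u ^ (A.card + 1) =
        (c k : ℂ) * u * ∑ j ∈ range (A.card + 1), ((EP c s A).coeff j : ℂ) *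
          (u ^ (A.card - j) * v ^ j) := by
      rw [Finset.sum_range_succ, ht, Finset.sum_range_succ' (fun j => ((EP c s A).coeff j : ℂ) *
          (u ^ (A.card - j) * v ^ j)) A.card, mul_add, Finset.mul_sum]
      simp only [Complex.ofReal_zero, mul_zero, zero_mul, add_zero, Nat.sub_zero, pow_zero,
        mul_one]
      congr 1
      · apply Finset.sum_congr rfl
        intro j hj
        have hj' := Finset.mem_range.1 hj
        have e : A.card + 1 - (j + 1) = (A.card - (j + 1)) + 1 := by omega
        rw [e, pow_succ]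
        ring
      · rw [pow_succ]
        ring
    have e2 : ∑ j ∈ range (A.card + 1), (s k : ℂ) * ((EP c s A).coeff j : ℂ) *
        (u ^ (A.card + 1 - (j + 1)) * v ^ (j + 1)) =
        (s k : ℂ) * v * ∑ j ∈ range (A.card + 1), ((EP c s A).coeff j : ℂ) *
          (u ^ (A.card - j) * v ^ j) := by
      rw [Finset.mul_sum]
      apply Finset.sum_congr rfl
      intro j _
      have e : A.card + 1 - (j + 1) = A.card - j := by omega
      rw [e, pow_succ]
      ring
    rw [add_right_comm, e1, e2]

lemma FF_eq_sum (b : ι → ℝ) (A : Finset ι) (x : ℝ) :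
    FF b A x = ∑ j ∈ range (A.card + 1),
      ((EP (fun k => Real.cos (b k / 2)) (fun k => Real.sin (b k / 2)) A).coeff j : ℂ) *
        (((x : ℂ) - 1) ^ (A.card - j) * (((x : ℂ) + 1) * Complex.I) ^ j) := by
  rw [← prod_eq_sum]
  unfold FF
  apply Finset.prod_congr rfl
  intro k _
  unfold fk
  push_cast
  ring

end Pool.Agent.MP_fe2d2a_anF
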