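import Mathlib
import Pool.Agent.Lib.MP_fe2d2a_anF.Frame
import Pool.Agent.Lib.MP_fe2d2a_anLP.Eight

/-!
Groups of eight factors.
-/

set_option autoImplicit false

open Finset Polynomial

namespace Pool.Agent.MP_fe2d2a_anF

open Pool.Agent.MP_fe2d2a_anR Pool.Agent.MP_fe2d2a_anP Pool.Agent.MP_fe2d2a_anEC

variable {ι : Type*} [DecidableEq ι]

/-- The sum of two squares. -/
lemma eight_sq (x0 x1 x2 x3 x4 y0 y1 y2 y3 : ℝ) :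
    (C x0 * ((X : ℝ[X]) ^ 8 + 1) + C x1 * ((X : ℝ[X]) ^ 7 + X) + C x2 * ((X : ℝ[X]) ^ 6 + X ^ 2) + C x3 * ((X : ℝ[X]) ^ 5 + X ^ 3) + C x4 * (X : ℝ[X]) ^ 4) ^ 2 +
      (C y0 * ((X : ℝ[X]) ^ 8 - 1) + C y1 * ((X : ℝ[X]) ^ 7 - X) + C y2 * ((X : ℝ[X]) ^ 6 - X ^ 2) + C y3 * ((X : ℝ[X]) ^ 5 - X ^ 3)) ^ 2 =
    C (x0 ^ 2 + y0 ^ 2) * (X ^ 16 + 1) +
      C (2 * (x0 * x1) + 2 * (y0 * y1)) * (X ^ 15 + X) +
      C (2 * (x0 * x2) + x1 ^ 2 + 2 * (y0 * y2) + y1 ^ 2) * (X ^ 14 + X ^ 2) +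
      C (2 * (x0 * x3) + 2 * (x1 * x2) + 2 * (y0 * y3) + 2 * (y1 * y2)) * (X ^ 13 + X ^ 3) +
      C (2 * (x0 * x4) + 2 * (x1 * x3) + x2 ^ 2 + 2 * (y1 * y3) + y2 ^ 2) * (X ^ 12 + X ^ 4) +
      C (2 * (x0 * x3) + 2 * (x1 * x4) + 2 * (x2 * x3) + 2 * (y2 * y3) - 2 * (y0 * y3)) * (X ^ 11 + X ^ 5) +
      C (2 * (x0 * x2) + 2 * (x1 * x3) + 2 * (x2 * x4) + x3 ^ 2 + y3 ^ 2 - 2 * (y0 * y2) - 2 * (y1 * y3)) * (X ^ 10 + X ^ 6) +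
      C (2 * (x0 * x1) + 2 * (x1 * x2) + 2 * (x2 * x3) + 2 * (x3 * x4) - 2 * (y0 * y1) - 2 * (y1 * y2) - 2 * (y2 * y3)) * (X ^ 9 + X ^ 7) +
      C (2 * (x0 ^ 2) + 2 * (x1 ^ 2) + 2 * (x2 ^ 2) + 2 * (x3 ^ 2) + x4 ^ 2 - 2 * (y0 ^ 2) - 2 * (y1 ^ 2) - 2 * (y2 ^ 2) - 2 * (y3 ^ 2)) * X ^ 8 := by
  simp only [C_mul, C_add, C_sub, C_neg, C_pow, map_ofNat]
  ring

/-- The Wronskian. -/
lemma eight_wr (x0 x1 x2 x3 x4 y0 y1 y2 y3 : ℝ) :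
    derivative (C x0 * ((X : ℝ[X]) ^ 8 + 1) + C x1 * ((X : ℝ[X]) ^ 7 + X) + C x2 * ((X : ℝ[X]) ^ 6 + X ^ 2) + C x3 * ((X : ℝ[X]) ^ 5 + X ^ 3) + C x4 * (X : ℝ[X]) ^ 4) *
      (C y0 * ((X : ℝ[X]) ^ 8 - 1) + C y1 * ((X : ℝ[X]) ^ 7 - X) + C y2 * ((X : ℝ[X]) ^ 6 - X ^ 2) + C y3 * ((X : ℝ[X]) ^ 5 - X ^ 3)) -
      (C x0 * ((X : ℝ[X]) ^ 8 + 1) + C x1 * ((X : ℝ[X]) ^ 7 + X) + C x2 * ((X : ℝ[X]) ^ 6 + X ^ 2) + C x3 * ((X : ℝ[X]) ^ 5 + X ^ 3) + C x4 * (X : ℝ[X]) ^ 4) *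
      derivative (C y0 * ((X : ℝ[X]) ^ 8 - 1) + C y1 * ((X : ℝ[X]) ^ 7 - X) + C y2 * ((X : ℝ[X]) ^ 6 - X ^ 2) + C y3 * ((X : ℝ[X]) ^ 5 - X ^ 3)) =
    C (x0 * y1 - x1 * y0) * (X ^ 14 + 1) +
      C (2 * (x0 * y2) - 2 * (x2 * y0)) * (X ^ 13 + X) +
      C (3 * (x0 * y3) + x1 * y2 - x2 * y1 - 3 * (x3 * y0)) * (X ^ 12 + X ^ 2) +
      C (2 * (x1 * y3) - 2 * (x3 * y1) - 4 * (x4 * y0)) * (X ^ 11 + X ^ 3) +
      C (x2 * y3 - 5 * (x0 * y3) - 5 * (x3 * y0) - x3 * y2 - 3 * (x4 * y1)) * (X ^ 10 + X ^ 4) +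
      C (-(6 * (x0 * y2)) - 4 * (x1 * y3) - 6 * (x2 * y0) - 4 * (x3 * y1) - 2 * (x4 * y2)) * (X ^ 9 + X ^ 5) +
      C (-(7 * (x0 * y1)) - 7 * (x1 * y0) - 5 * (x1 * y2) - 5 * (x2 * y1) - 3 * (x2 * y3) - 3 * (x3 * y2) - x4 * y3) * (X ^ 8 + X ^ 6) +
      C (-(16 * (x0 * y0)) - 12 * (x1 * y1) - 8 * (x2 * y2) - 4 * (x3 * y3)) * X ^ 7 := by
  simp only [derivative_add, derivative_sub, derivative_mul, derivative_C, derivative_X_pow,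
    derivative_X, derivative_one, zero_mul, zero_add, C_mul, C_add, C_sub, C_neg, map_ofNat,
    Nat.cast_ofNat]
  ring

/-- The middle inequalities. -/
lemma eight_mid (b : ι → ℝ) (A : Finset ι) (ha : ∀ k ∈ A, 0 < b k ∧ b k < Real.pi)
    (hcard : A.card = 8) : Mid b A := by
  intro hc hw h0 h1 i hi1 hi2
  obtain ⟨q, hq, hE⟩ := newton (fun k => Real.cos (b k / 2)) (fun k => Real.sin (b k / 2)) A
    (fun k hk => Real.cos_pos_of_mem_Ioo ⟨by linarith [(ha k hk).1, Real.pi_pos],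
      by linarith [(ha k hk).2]⟩)
    (fun k hk => Real.sin_pos_of_pos_of_lt_pi (by linarith [(ha k hk).1])
      (by linarith [(ha k hk).1, (ha k hk).2]))
  rw [hcard] at hq hE hc hw hi2
  have P0 : 0 < q 1 := hq.pos 0 (by norm_num)
  have P1 : 0 < q 2 := hq.pos 1 (by norm_num)
  have P2 : 0 < q 3 := hq.pos 2 (by norm_num)
  have P3 : 0 < q 4 := hq.pos 3 (by norm_num)
  have P4 : 0 < q 5 := hq.pos 4 (by norm_num)
  have P5 : 0 < q 6 := hq.pos 5 (by norm_num)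
  have P6 : 0 < q 7 := hq.pos 6 (by norm_num)
  have P7 : 0 < q 8 := hq.pos 7 (by norm_num)
  have P8 : 0 < q 9 := hq.pos 8 (by norm_num)
  have L1 : q 1 * q 3 ≤ q 2 ^ 2 := hq.lc 1
  have L2 : q 2 * q 4 ≤ q 3 ^ 2 := hq.lc 2
  have L3 : q 3 * q 5 ≤ q 4 ^ 2 := hq.lc 3
  have L4 : q 4 * q 6 ≤ q 5 ^ 2 := hq.lc 4
  have L5 : q 5 * q 7 ≤ q 6 ^ 2 := hq.lc 5
  have L6 : q 6 * q 8 ≤ q 7 ^ 2 := hq.lc 6
  have L7 : q 7 * q 9 ≤ q 8 ^ 2 := hq.lc 7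
  obtain ⟨x0, x1, x2, x3, x4, y0, y1, y2, y3, f0, f1, f2, f3, f4, g0, g1, g2, g3⟩ : ∃ x0 x1 x2 x3 x4 y0 y1 y2 y3 : ℝ,
      x0 = q 1 - 28 * q 3 + 70 * q 5 - 28 * q 7 + q 9 ∧
      x1 = -8 * q 1 + 112 * q 3 - 112 * q 7 + 8 * q 9 ∧
      x2 = 28 * q 1 - 112 * q 3 - 280 * q 5 - 112 * q 7 + 28 * q 9 ∧
      x3 = -56 * q 1 - 112 * q 3 + 112 * q 7 + 56 * q 9 ∧
      x4 = 70 * q 1 + 280 * q 3 + 420 * q 5 + 280 * q 7 + 70 * q 9 ∧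
      y0 = 8 * q 2 - 56 * q 4 + 56 * q 6 - 8 * q 8 ∧
      y1 = -48 * q 2 + 112 * q 4 + 112 * q 6 - 48 * q 8 ∧
      y2 = 112 * q 2 + 112 * q 4 - 112 * q 6 - 112 * q 8 ∧
      y3 = -112 * q 2 - 336 * q 4 - 336 * q 6 - 112 * q 8 :=
    ⟨_, _, _, _, _, _, _, _, _, rfl, rfl, rfl, rfl, rfl, rfl, rfl, rfl, rfl⟩
  have i2 : Complex.I ^ 2 = -1 := Complex.I_sq
  have i3 : Complex.I ^ 3 = -Complex.I := by rw [pow_succ, i2]; ring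
  have i4 : Complex.I ^ 4 = 1 := by rw [pow_succ, i3]; linear_combination -i2
  have i5 : Complex.I ^ 5 = Complex.I := by rw [pow_succ, i4, one_mul]
  have i6 : Complex.I ^ 6 = -1 := by rw [pow_succ, i5]; linear_combination i2
  have i7 : Complex.I ^ 7 = -Complex.I := by rw [pow_succ, i6]; ring
  have i8 : Complex.I ^ 8 = 1 := by rw [pow_succ, i7]; linear_combination -i2
  have hF : ∀ x : ℝ, FF b A x =
      (((C x0 * ((X : ℝ[X]) ^ 8 + 1) + C x1 * ((X : ℝ[X]) ^ 7 + X) + C x2 * ((X : ℝ[X]) ^ 6 + X ^ 2) + C x3 * ((X : ℝ[X]) ^ 5 + X ^ 3) + C x4 * (X : ℝ[X]) ^ 4).eval x : ℝ) : ℂ) +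
      (((C y0 * ((X : ℝ[X]) ^ 8 - 1) + C y1 * ((X : ℝ[X]) ^ 7 - X) + C y2 * ((X : ℝ[X]) ^ 6 - X ^ 2) + C y3 * ((X : ℝ[X]) ^ 5 - X ^ 3)).eval x : ℝ) : ℂ) *
        Complex.I := by
    intro x
    rw [FF_eq_sum, hcard]
    simp only [Finset.sum_range_succ, Finset.sum_range_zero, hE]
    have b0 : Nat.choose 8 0 = 1 := rfl
    have b1 : Nat.choose 8 1 = 8 := rfl
    have b2 : Nat.choose 8 2 = 28 := rfl
    have b3 : Nat.choose 8 3 = 56 := rfl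
    have b4 : Nat.choose 8 4 = 70 := rfl
    have b5 : Nat.choose 8 5 = 56 := rfl
    have b6 : Nat.choose 8 6 = 28 := rfl
    have b7 : Nat.choose 8 7 = 8 := rfl
    have b8 : Nat.choose 8 8 = 1 := rfl
    simp only [b0, b1, b2, b3, b4, b5, b6, b7, b8, mul_pow, i2, i3, i4, i5, i6, i7, i8, pow_zero, pow_one, eval_add,
      eval_sub, eval_mul, eval_C, eval_pow, eval_X, eval_one, f0, f1, f2, f3, f4, g0, g1, g2, g3]
    push_cast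
    ring
  obtain ⟨hP, hW⟩ := frame b A _ _ hF
  rw [eight_sq] at hP
  rw [eight_wr] at hW
  rw [hP] at hc
  clear hP hF hE
  have C1 := hc 1 (by norm_num)
  have C2 := hc 2 (by norm_num)
  have C3 := hc 3 (by norm_num)
  have C4 := hc 4 (by norm_num)
  have C5 := hc 5 (by norm_num)
  have C6 := hc 6 (by norm_num)
  have C7 := hc 7 (by norm_num)
  have C8 := hc 8 (by norm_num)
  clear hc
  simp only [coeff_add, coeff_C_mul, coeff_X_pow, coeff_X, coeff_one] at C1 C2 C3 C4 C5 C6 C7 C8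
  norm_num at C1 C2 C3 C4 C5 C6 C7 C8
  have V0 := hW 0
  have V1 := hW 1
  have V2 := hW 2
  have V3 := hW 3
  have V4 := hW 4
  have V5 := hW 5
  have V6 := hW 6
  have V7 := hW 7
  clear hW
  simp only [coeff_add, coeff_C_mul, coeff_X_pow, coeff_X, coeff_one] at V0 V1 V2 V3 V4 V5 V6 V7
  norm_num at V0 V1 V2 V3 V4 V5 V6 V7
  have w2 := hw 2 (by norm_num)
  have w3 := hw 3 (by norm_num)
  have w4 := hw 4 (by norm_num)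
  have w5 := hw 5 (by norm_num)
  have w6 := hw 6 (by norm_num)
  have w7 := hw 7 (by norm_num)
  rw [V2] at w2
  rw [V3] at w3
  rw [V4] at w4
  rw [V5] at w5
  rw [V6] at w6
  rw [V7] at w7
  rw [V0] at h0
  rw [V1] at h1
  have hi3 : i ≤ 7 := by omega
  subst f0 f1 f2 f3 f4 g0 g1 g2 g3
  have K := Pool.Agent.Lib.MP_fe2d2a_anLP.eight_alg (q 1) (q 2) (q 3) (q 4) (q 5) (q 6) (q 7) (q 8) (q 9)
    P0 P1 P2 P3 P4 P5 P6 P7 P8 L1 L2 L3 L4 L5 L6 L7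
    (by linarith only [C1]) (by linarith only [C2]) (by linarith only [C3]) (by linarith only [C4]) (by linarith only [C5]) (by linarith only [C6]) (by linarith only [C7]) (by linarith only [C8])
    (by linarith only [h0]) (by linarith only [h1]) (by linarith only [w2]) (by linarith only [w3]) (by linarith only [w4]) (by linarith only [w5]) (by linarith only [w6]) (by linarith only [w7])
  obtain ⟨K2, K3, K4, K5, K6, K7⟩ := K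
  interval_cases i
  · rw [V2]
    linarith only [K2]
  · rw [V3]
    linarith only [K3]
  · rw [V4]
    linarith only [K4]
  · rw [V5]
    linarith only [K5]
  · rw [V6]
    linarith only [K6]
  · rw [V7]
    linarith only [K7]

/-- The block. -/
lemma eight_block (a : ι → ℝ) (A : Finset ι) (ha : ∀ k ∈ A, 0 < a k ∧ a k < Real.pi)
    (hpos : ∀ j, 0 ≤ (RP a A 0).coeff j) (hcard : A.card = 8) :
    ∃ ε > (0 : ℝ), ∀ j, MonotoneOn (fun t : ℝ => (RP a A t).coeff j) (Set.Icc 0 ε) := by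
  apply block_of_mid a A ha hpos
  intro b hb
  exact eight_mid b A (fun k hk => ⟨(ha k hk).1.trans_le (hb k hk).1, (hb k hk).2⟩) hcard

end Pool.Agent.MP_fe2d2a_anF
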