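import Mathlib
import Pool.Agent.Lib.MP_fe2d2a_anF.Frame
import Pool.Agent.Lib.MP_fe2d2a_anF5.Alg

/-!
Five pairs of zeros.
-/

set_option autoImplicit false

open Finset Polynomial

namespace Pool.Agent.MP_fe2d2a_anF

open Pool.Agent.MP_fe2d2a_anR Pool.Agent.MP_fe2d2a_anP Pool.Agent.MP_fe2d2a_anEC

variable {ι : Type*} [DecidableEq ι]

/-- The algebra in homogeneous form. -/
lemma five_core {x0 x1 x2 y0 y1 y2 : ℝ} (hx2 : 0 < x2) (hy2 : 0 < y2)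
    (E0 : 0 < x2 + x0 - x1) (E1 : 0 < y2 + 5 * y0 - 3 * y1) (E2 : 0 < x2 + x1 - 5 * x0)
    (E3 : 0 < y2 - y1 - 5 * y0) (E4 : 0 < x2 + 5 * x0 + 3 * x1) (E5 : 0 < y2 + y0 + y1)
    (N1 : 10 * (x0 * x2) ≤ 4 * x1 ^ 2 - 2 * (x1 * x2) - x2 ^ 2)
    (N2 : 10 * (y0 * y2) ≤ 4 * y1 ^ 2 + 2 * (y1 * y2) - y2 ^ 2)
    (W0 : 0 < x0 * y1 - y0 * x1) (W1 : 0 < x0 * y2 - y0 * x2)
    (W2 : 0 ≤ 3 * (x0 * y2 + y0 * x2) + (x1 * y2 - y1 * x2))
    (W3 : 0 ≤ 2 * (x0 * y1 + y0 * x1) + (x1 * y2 + y1 * x2))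
    (W4 : 0 ≤ 5 * (x0 * y0) + 3 * (x1 * y1) + x2 * y2)
    (c1 : 0 < x0 * x1 + y0 * y1) (c2 : 0 < 2 * (x0 * x2 + y0 * y2) + x1 ^ 2 + y1 ^ 2)
    (c3 : 0 < -(x0 * x2) + y0 * y2 + x1 * x2 + y1 * y2)
    (c4 : 0 < 2 * (-(x0 * x1) + y0 * y1 - x1 * x2 + y1 * y2) + x2 ^ 2 + y2 ^ 2)
    (c5 : 0 < y0 ^ 2 + y1 ^ 2 + y2 ^ 2 - x0 ^ 2 - x1 ^ 2 - x2 ^ 2) :
    0 < 3 * (x0 * y2 + y0 * x2) + (x1 * y2 - y1 * x2) ∧
      0 < 2 * (x0 * y1 + y0 * x1) + (x1 * y2 + y1 * x2) ∧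
      0 < 5 * (x0 * y0) + 3 * (x1 * y1) + x2 * y2 := by
  obtain ⟨a, rfl⟩ : ∃ a, x0 = a * x2 := ⟨x0 / x2, by field_simp⟩
  obtain ⟨b, rfl⟩ : ∃ b, x1 = b * x2 := ⟨x1 / x2, by field_simp⟩
  obtain ⟨c, rfl⟩ : ∃ c, y0 = c * y2 := ⟨y0 / y2, by field_simp⟩
  obtain ⟨d, rfl⟩ : ∃ d, y1 = d * y2 := ⟨y1 / y2, by field_simp⟩
  obtain ⟨l, hl⟩ : ∃ l, x2 ^ 2 = l * y2 ^ 2 := ⟨x2 ^ 2 / y2 ^ 2, by field_simp⟩
  have hy : 0 < y2 ^ 2 := by positivity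
  have hx : 0 < x2 ^ 2 := by positivity
  have hxy : 0 < x2 * y2 := mul_pos hx2 hy2
  have hlp : 0 < l := by
    have : 0 < l * y2 ^ 2 := by rw [← hl]; exact hx
    exact pos_of_mul_pos_left this hy.le
  have px : ∀ z, 0 < x2 * z → 0 < z := fun z h => pos_of_mul_pos_right h hx2.le
  have py : ∀ z, 0 < y2 * z → 0 < z := fun z h => pos_of_mul_pos_right h hy2.le
  have pxx : ∀ z, 0 ≤ x2 ^ 2 * z → 0 ≤ z := fun z h => nonneg_of_mul_nonneg_right h hx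
  have pyy : ∀ z, 0 ≤ y2 ^ 2 * z → 0 ≤ z := fun z h => nonneg_of_mul_nonneg_right h hy
  have pyyp : ∀ z, 0 < y2 ^ 2 * z → 0 < z := fun z h => pos_of_mul_pos_right h hy.le
  have pxy : ∀ z, 0 ≤ (x2 * y2) * z → 0 ≤ z := fun z h => nonneg_of_mul_nonneg_right h hxy
  have pxyp : ∀ z, 0 < (x2 * y2) * z → 0 < z := fun z h => pos_of_mul_pos_right h hxy.le
  have h := Pool.Agent.Lib.MP_fe2d2a_anF5.alg5 a b c d l hlp
    (px _ (by linear_combination E0)) (py _ (by linear_combination E1))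
    (px _ (by linear_combination E2)) (py _ (by linear_combination E3))
    (px _ (by linear_combination E4)) (py _ (by linear_combination E5))
    (by
      have := pxx (4 * b ^ 2 - 2 * b - 1 - 10 * a) (by linear_combination N1)
      linarith)
    (by
      have := pyy (4 * d ^ 2 + 2 * d - 1 - 10 * c) (by linear_combination N2)
      linarith)
    (by
      have := pxyp (a * d - b * c) (by linear_combination W0)
      linarith)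
    (by
      have := pxyp (a - c) (by linear_combination W1)
      linarith)
    (pxy _ (by linear_combination W2)) (pxy _ (by linear_combination W3))
    (pxy _ (by linear_combination W4))
    (pyyp _ (by linear_combination c1 + (a * b) * hl))
    (pyyp _ (by linear_combination c2 + (2 * a + b ^ 2) * hl))
    (pyyp _ (by linear_combination c3 + (b - a) * hl))
    (pyyp _ (by linear_combination c4 + (1 - 2 * a * b - 2 * b) * hl))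
    (by
      have := pyyp (1 + c ^ 2 + d ^ 2 - l * (1 + a ^ 2 + b ^ 2))
        (by linear_combination c5 - (1 + a ^ 2 + b ^ 2) * hl)
      linarith)
  obtain ⟨r1, r2, r3⟩ := h
  refine ⟨?_, ?_, ?_⟩
  · linear_combination mul_pos hxy r1
  · linear_combination mul_pos hxy r2
  · linear_combination mul_pos hxy r3

/-- The sum of two squares. -/
lemma five_sq (x0 x1 x2 y0 y1 y2 : ℝ) :
    (C x0 * ((X : ℝ[X]) ^ 5 - 1) + C x1 * (X ^ 4 - X) + C x2 * (X ^ 3 - X ^ 2)) ^ 2 +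
      (C y0 * ((X : ℝ[X]) ^ 5 + 1) + C y1 * (X ^ 4 + X) + C y2 * (X ^ 3 + X ^ 2)) ^ 2 =
    C (x0 ^ 2 + y0 ^ 2) * (X ^ 10 + 1) + C (2 * (x0 * x1 + y0 * y1)) * (X ^ 9 + X) +
      C (2 * (x0 * x2 + y0 * y2) + x1 ^ 2 + y1 ^ 2) * (X ^ 8 + X ^ 2) +
      C (2 * (-(x0 * x2) + y0 * y2 + x1 * x2 + y1 * y2)) * (X ^ 7 + X ^ 3) +
      C (2 * (-(x0 * x1) + y0 * y1 - x1 * x2 + y1 * y2) + x2 ^ 2 + y2 ^ 2) * (X ^ 6 + X ^ 4) +
      C (2 * (y0 ^ 2 + y1 ^ 2 + y2 ^ 2 - x0 ^ 2 - x1 ^ 2 - x2 ^ 2)) * X ^ 5 := by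
  simp only [C_mul, C_add, C_sub, C_neg, C_pow, map_ofNat]
  ring

/-- The Wronskian. -/
lemma five_wr (x0 x1 x2 y0 y1 y2 : ℝ) :
    derivative (C x0 * ((X : ℝ[X]) ^ 5 - 1) + C x1 * (X ^ 4 - X) + C x2 * (X ^ 3 - X ^ 2)) *
      (C y0 * ((X : ℝ[X]) ^ 5 + 1) + C y1 * (X ^ 4 + X) + C y2 * (X ^ 3 + X ^ 2)) -
      (C x0 * ((X : ℝ[X]) ^ 5 - 1) + C x1 * (X ^ 4 - X) + C x2 * (X ^ 3 - X ^ 2)) *
      derivative (C y0 * ((X : ℝ[X]) ^ 5 + 1) + C y1 * (X ^ 4 + X) + C y2 * (X ^ 3 + X ^ 2)) =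
    C (x0 * y1 - y0 * x1) * (X ^ 8 + 1) + C (2 * (x0 * y2 - y0 * x2)) * (X ^ 7 + X) +
      C (3 * (x0 * y2 + y0 * x2) + (x1 * y2 - y1 * x2)) * (X ^ 6 + X ^ 2) +
      C (4 * (x0 * y1 + y0 * x1) + 2 * (x1 * y2 + y1 * x2)) * (X ^ 5 + X ^ 3) +
      C (10 * (x0 * y0) + 6 * (x1 * y1) + 2 * (x2 * y2)) * X ^ 4 := by
  simp only [derivative_add, derivative_sub, derivative_mul, derivative_C, derivative_X_pow,
    derivative_X, derivative_one, zero_mul, zero_add, C_mul, C_add, C_sub, map_ofNat,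
    Nat.cast_ofNat]
  ring

/-- The middle inequalities for five factors. -/
lemma five_mid (b : ι → ℝ) (A : Finset ι) (ha : ∀ k ∈ A, 0 < b k ∧ b k < Real.pi)
    (hcard : A.card = 5) : Mid b A := by
  intro hc hw h0 h1 i hi1 hi2
  obtain ⟨q, hq, hE⟩ := newton (fun k => Real.cos (b k / 2)) (fun k => Real.sin (b k / 2)) A
    (fun k hk => Real.cos_pos_of_mem_Ioo ⟨by linarith [(ha k hk).1, Real.pi_pos],
      by linarith [(ha k hk).2]⟩)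
    (fun k hk => Real.sin_pos_of_pos_of_lt_pi (by linarith [(ha k hk).1])
      (by linarith [(ha k hk).1, (ha k hk).2]))
  rw [hcard] at hq hE hc hw hi2
  have P0 : 0 < q 1 := hq.pos 0 (by norm_num)
  have P1 : 0 < q 2 := hq.pos 1 (by norm_num)
  have P2 : 0 < q 3 := hq.pos 2 (by norm_num)
  have P3 : 0 < q 4 := hq.pos 3 (by norm_num)
  have P4 : 0 < q 5 := hq.pos 4 (by norm_num)
  have P5 : 0 < q 6 := hq.pos 5 (by norm_num)
  have L2 : q 2 * q 4 ≤ q 3 ^ 2 := hq.lc 2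
  have L3 : q 3 * q 5 ≤ q 4 ^ 2 := hq.lc 3
  have M1 : q 1 * q 4 ≤ q 2 * q 3 := hq.mix 1
  have M2 : q 2 * q 5 ≤ q 3 * q 4 := hq.mix 2
  have M3 : q 3 * q 6 ≤ q 4 * q 5 := hq.mix 3
  have N1 : q 1 * q 5 ≤ q 3 ^ 2 := by
    have e : (q 3) * (q 1 * q 5) ≤ q 3 * q 3 ^ 2 := by
      have k1 : (q 1 * q 4) * q 5 ≤ (q 2 * q 3) * q 5 := mul_le_mul_of_nonneg_right M1 P4.le
      have k2 : (q 2 * q 5) * q 3 ≤ (q 3 * q 4) * q 3 := mul_le_mul_of_nonneg_right M2 P2.le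
      have k3 : q 4 * (q 1 * q 5) ≤ q 4 * (q 3 * q 3) := by linarith
      have k4 := le_of_mul_le_mul_left k3 P3
      have k5 := mul_le_mul_of_nonneg_left k4 P2.le
      linarith
    exact le_of_mul_le_mul_left e P2
  have N2 : q 2 * q 6 ≤ q 4 ^ 2 := by
    have k1 : (q 2 * q 5) * q 6 ≤ (q 3 * q 4) * q 6 := mul_le_mul_of_nonneg_right M2 P5.le
    have k2 : (q 3 * q 6) * q 4 ≤ (q 4 * q 5) * q 4 := mul_le_mul_of_nonneg_right M3 P3.le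
    have k3 : q 5 * (q 2 * q 6) ≤ q 5 * q 4 ^ 2 := by linarith
    exact le_of_mul_le_mul_left k3 P4
  obtain ⟨x0, x1, x2, y0, y1, y2, f0, f1, f2, g0, g1, g2⟩ : ∃ x0 x1 x2 y0 y1 y2 : ℝ,
      x0 = q 1 - 10 * q 3 + 5 * q 5 ∧ x1 = -5 * q 1 + 10 * q 3 + 15 * q 5 ∧
      x2 = 10 * q 1 + 20 * q 3 + 10 * q 5 ∧ y0 = 5 * q 2 - 10 * q 4 + q 6 ∧
      y1 = -15 * q 2 - 10 * q 4 + 5 * q 6 ∧ y2 = 10 * q 2 + 20 * q 4 + 10 * q 6 :=
    ⟨_, _, _, _, _, _, rfl, rfl, rfl, rfl, rfl, rfl⟩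
  have i2 : Complex.I ^ 2 = -1 := Complex.I_sq
  have i3 : Complex.I ^ 3 = -Complex.I := by rw [pow_succ, i2]; ring
  have i4 : Complex.I ^ 4 = 1 := by rw [pow_succ, i3]; linear_combination -i2
  have i5 : Complex.I ^ 5 = Complex.I := by rw [pow_succ, i4, one_mul]
  have hF : ∀ x : ℝ, FF b A x =
      (((C x0 * ((X : ℝ[X]) ^ 5 - 1) + C x1 * (X ^ 4 - X) + C x2 * (X ^ 3 - X ^ 2)).eval x : ℝ) :
        ℂ) +
      (((C y0 * ((X : ℝ[X]) ^ 5 + 1) + C y1 * (X ^ 4 + X) + C y2 * (X ^ 3 + X ^ 2)).eval x : ℝ) :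
        ℂ) * Complex.I := by
    intro x
    rw [FF_eq_sum, hcard]
    simp only [Finset.sum_range_succ, Finset.sum_range_zero, hE]
    have b0 : Nat.choose 5 0 = 1 := rfl
    have b1 : Nat.choose 5 1 = 5 := rfl
    have b2 : Nat.choose 5 2 = 10 := rfl
    have b3 : Nat.choose 5 3 = 10 := rfl
    have b4 : Nat.choose 5 4 = 5 := rfl
    have b5 : Nat.choose 5 5 = 1 := rfl
    simp only [b0, b1, b2, b3, b4, b5, mul_pow, i2, i3, i4, i5, pow_zero, pow_one, eval_add,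
      eval_sub, eval_mul, eval_C, eval_pow, eval_X, eval_one, f0, f1, f2, g0, g1, g2]
    push_cast
    ring
  obtain ⟨hP, hW⟩ := frame b A _ _ hF
  rw [five_sq] at hP
  rw [five_wr] at hW
  have hc' : ∀ j ≤ 10, 0 < (C (x0 ^ 2 + y0 ^ 2) * (X ^ 10 + 1) +
      C (2 * (x0 * x1 + y0 * y1)) * (X ^ 9 + X) +
      C (2 * (x0 * x2 + y0 * y2) + x1 ^ 2 + y1 ^ 2) * (X ^ 8 + X ^ 2) +
      C (2 * (-(x0 * x2) + y0 * y2 + x1 * x2 + y1 * y2)) * (X ^ 7 + X ^ 3) +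
      C (2 * (-(x0 * x1) + y0 * y1 - x1 * x2 + y1 * y2) + x2 ^ 2 + y2 ^ 2) * (X ^ 6 + X ^ 4) +
      C (2 * (y0 ^ 2 + y1 ^ 2 + y2 ^ 2 - x0 ^ 2 - x1 ^ 2 - x2 ^ 2)) * X ^ 5 : ℝ[X]).coeff j := by
    intro j hj
    rw [← hP]
    exact hc j (by omega)
  have C1 := hc' 1 (by norm_num)
  have C2 := hc' 2 (by norm_num)
  have C3 := hc' 3 (by norm_num)
  have C4 := hc' 4 (by norm_num)
  have C5 := hc' 5 (by norm_num)
  simp only [coeff_add, coeff_C_mul, coeff_X_pow, coeff_X, coeff_one] at C1 C2 C3 C4 C5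
  norm_num at C1 C2 C3 C4 C5
  have V0 := hW 0
  have V1 := hW 1
  have V2 := hW 2
  have V3 := hW 3
  have V4 := hW 4
  simp only [coeff_add, coeff_C_mul, coeff_X_pow, coeff_X, coeff_one] at V0 V1 V2 V3 V4
  norm_num at V0 V1 V2 V3 V4
  have w2 := hw 2 (by norm_num)
  have w3 := hw 3 (by norm_num)
  have w4 := hw 4 (by norm_num)
  rw [V2] at w2
  rw [V3] at w3
  rw [V4] at w4
  rw [V0] at h0
  rw [V1] at h1
  have K := five_core (x0 := x0) (x1 := x1) (x2 := x2) (y0 := y0) (y1 := y1) (y2 := y2)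
    (by rw [f2]; positivity) (by rw [g2]; positivity)
    (by rw [f0, f1, f2]; linarith) (by rw [g0, g1, g2]; linarith) (by rw [f0, f1, f2]; linarith)
    (by rw [g0, g1, g2]; linarith) (by rw [f0, f1, f2]; linarith) (by rw [g0, g1, g2]; linarith)
    (by
      rw [f0, f1, f2]
      linear_combination 1600 * N1)
    (by
      rw [g0, g1, g2]
      linear_combination 1600 * N2)
    (by linarith) (by linarith) (by linarith) (by linarith) (by linarith) (by linarith)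
    (by linarith) (by linarith) (by linarith) (by linarith)
  obtain ⟨K2, K3, K4⟩ := K
  have hi3 : i ≤ 4 := by omega
  interval_cases i
  · rw [V2]
    linarith
  · rw [V3]
    linarith
  · rw [V4]
    linarith

/-- Five pairs of zeros. -/
lemma five_block (a : ι → ℝ) (A : Finset ι) (ha : ∀ k ∈ A, 0 < a k ∧ a k < Real.pi)
    (hpos : ∀ j, 0 ≤ (RP a A 0).coeff j) (hcard : A.card = 5) :
    ∃ ε > (0 : ℝ), ∀ j, MonotoneOn (fun t : ℝ => (RP a A t).coeff j) (Set.Icc 0 ε) := by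
  apply block_of_mid a A ha hpos
  intro b hb
  exact five_mid b A (fun k hk => ⟨(ha k hk).1.trans_le (hb k hk).1, (hb k hk).2⟩) hcard

end Pool.Agent.MP_fe2d2a_anF
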