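import Mathlib

/-!
Four pairs of zeros on the unit circle: the algebraic inequalities.
-/

set_option autoImplicit false

namespace Pool.Agent.MP_fe2d2a_anF

/-- The inequalities for the coefficients of index `3` and `4`. -/
lemma four_core {x0 x1 x2 y0 Y : ℝ} (F1 : 0 < x2 + 2 * x0 + 2 * x1)
    (F2 : 0 < x2 + 2 * x0 - 2 * x1) (H1 : 0 < Y - 2 * y0) (H2 : 0 < Y + 2 * y0)
    (w0 : 0 < -(x0 * Y) - y0 * x1) (c1 : 0 ≤ x0 * x1 - y0 * Y)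
    (c2 : 0 ≤ x1 ^ 2 + Y ^ 2 + 2 * x0 * x2) (c3 : 0 ≤ x1 * (x0 + x2) + y0 * Y)
    (c4 : 0 ≤ 2 * x0 ^ 2 + 2 * x1 ^ 2 + x2 ^ 2 - 2 * y0 ^ 2 - 2 * Y ^ 2) :
    0 < 3 * x0 * Y - 3 * x1 * y0 + x2 * Y ∧
      (0 < -8 * x0 * y0 + 4 * x1 * Y ∨ (y0 = 0 ∧ x1 = 0)) := by
  have hY : 0 < Y := by linarith
  rcases le_or_gt 0 x0 with hx | hx
  · -- the case `0 ≤ x0`
    have hxY : 0 ≤ x0 * Y := mul_nonneg hx hY.le
    have hy1 : y0 * x1 < 0 := by linarith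
    have hy0 : y0 < 0 := by
      by_contra h
      push Not at h
      rcases h.lt_or_eq with h | h
      · have h1 : x1 < 0 := by
          by_contra h2
          push Not at h2
          have := mul_nonneg h.le h2
          linarith
        have h3 : 0 < y0 * Y := mul_pos h hY
        have h4 : x0 * x1 ≤ 0 := mul_nonpos_of_nonneg_of_nonpos hx h1.le
        linarith
      · rw [← h] at hy1
        linarith
    have hx1 : 0 < x1 := by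
      by_contra h2
      push Not at h2
      have := mul_nonneg_of_nonpos_of_nonpos hy0.le h2
      linarith
    -- `2 * x0 ≤ x1`
    have h5 : 2 * x0 < x1 := by
      by_contra h
      push Not at h
      have h6 : -y0 * x1 ≤ (Y / 2) * x1 := mul_le_mul_of_nonneg_right (by linarith) hx1.le
      have h7 : (Y / 2) * x1 ≤ (Y / 2) * (2 * x0) := mul_le_mul_of_nonneg_left h (by linarith)
      nlinarith
    have hx2 : 0 < x2 := by linarith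
    have t1 : 0 < x2 * Y := mul_pos hx2 hY
    have t2 : 0 < x1 * -y0 := mul_pos hx1 (by linarith)
    have t3 : 0 ≤ x0 * -y0 := mul_nonneg hx (by linarith)
    have t4 : 0 < x1 * Y := mul_pos hx1 hY
    exact ⟨by linarith, Or.inl (by linarith)⟩
  · -- the case `x0 < 0`
    have hx2 : 0 < x2 := by linarith
    have hx02 : 0 < x0 + x2 := by linarith
    have hX2 : -2 * x0 < x2 := by linarith
    have hy0 : y0 ≤ 0 := by
      by_contra h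
      push Not at h
      have h3 : 0 < y0 * Y := mul_pos h hY
      have h1 : x1 < 0 := by
        by_contra h2
        push Not at h2
        have := mul_nonneg (neg_nonneg.2 hx.le) h2
        linarith
      have h4 : 0 < (-x1) * (x2 + 2 * x0) := mul_pos (by linarith) (by linarith)
      nlinarith
    have hx1 : 0 ≤ x1 := by
      by_contra h2
      push Not at h2
      have h4 : 0 < (-x1) * (x0 + x2) := mul_pos (by linarith) hx02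
      have h5 : 0 ≤ -y0 * Y := mul_nonneg (by linarith) hY.le
      nlinarith
    -- `-3 * x0 < x2`
    have h3 : -3 * x0 < x2 := by
      have h4 : 4 * x1 ^ 2 < (x2 + 2 * x0) ^ 2 := by
        have := mul_pos (show 0 < x2 + 2 * x0 - 2 * x1 from F2) (show 0 < x2 + 2 * x0 + 2 * x1 from F1)
        nlinarith
      have h5 : 0 < 2 * (x2 + x0) * (x2 + 3 * x0) := by nlinarith [sq_nonneg y0]
      by_contra h
      push Not at h
      have h6 : (x2 + x0) * (x2 + 3 * x0) ≤ 0 :=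
        mul_nonpos_of_nonneg_of_nonpos (by linarith) (by linarith)
      linarith
    refine ⟨?_, ?_⟩
    · have h4 : 0 < Y * (x2 + 3 * x0) := mul_pos hY (by linarith)
      have h5 : 0 ≤ x1 * -y0 := mul_nonneg hx1 (by linarith)
      nlinarith
    · rcases hy0.lt_or_eq with hy | hy
      · left
        by_contra h
        push Not at h
        have k0 : x1 * Y ≤ 2 * (x0 * y0) := by linarith
        -- `x1 < -x0`
        have k1 : x1 < -x0 := by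
          by_contra h'
          push Not at h'
          have : (-x0) * Y ≤ x1 * Y := mul_le_mul_of_nonneg_right h' hY.le
          have k2 : 0 < (-x0) * (Y + 2 * y0) := mul_pos (by linarith) H2
          nlinarith
        -- `Y ^ 2 ≤ -2 * x0 * x2 - 2 * x0 ^ 2`
        have k3 : -y0 * Y ≤ x1 * (x0 + x2) := by linarith
        have k4 : -y0 * Y * Y ≤ x1 * (x0 + x2) * Y := mul_le_mul_of_nonneg_right k3 hY.le
        have k5 : x1 * Y * (x0 + x2) ≤ 2 * (x0 * y0) * (x0 + x2) :=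
          mul_le_mul_of_nonneg_right k0 hx02.le
        have k6 : (-y0) * Y ^ 2 ≤ (-y0) * (-2 * x0 * (x0 + x2)) := by nlinarith
        have k7 : Y ^ 2 ≤ -2 * x0 * (x0 + x2) := le_of_mul_le_mul_left k6 (by linarith)
        have k8 : x1 ^ 2 < x0 ^ 2 := by nlinarith
        nlinarith
      · rcases hx1.lt_or_eq with hx1' | hx1'
        · left
          have := mul_pos hx1' hY
          rw [hy]
          linarith
        · right
          exact ⟨hy, hx1'.symm⟩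


lemma id1 {p q r u a b c d x0 x1 x2 y0 Y : ℝ}
    (hp : p ^ 2 + a ^ 2 = 1) (hq : q ^ 2 + b ^ 2 = 1) (hr : r ^ 2 + c ^ 2 = 1)
    (hu : u ^ 2 + d ^ 2 = 1)
    (e0 : x0 = (p * q * r * u) - (a * b * r * u + a * q * c * u + a * q * r * d + p * b * c * u + p * b * r * d + p * q * c * d) + (a * b * c * d))
    (e1 : x1 = 4 * ((a * b * c * d) - (p * q * r * u)))
    (e2 : x2 = 6 * (p * q * r * u) + 2 * (a * b * r * u + a * q * c * u + a * q * r * d + p * b * c * u + p * b * r * d + p * q * c * d) + 6 * (a * b * c * d))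
    (e3 : y0 = (a * q * r * u + p * b * r * u + p * q * c * u + p * q * r * d) - (a * b * c * u + a * b * r * d + a * q * c * d + p * b * c * d))
    (e4 : Y = 2 * ((a * q * r * u + p * b * r * u + p * q * c * u + p * q * r * d) + (a * b * c * u + a * b * r * d + a * q * c * d + p * b * c * d))) :
    -2 * ((p ^ 2 - a ^ 2) + (q ^ 2 - b ^ 2) + (r ^ 2 - c ^ 2) + (u ^ 2 - d ^ 2)) =
      2 * (x0 * x1 - y0 * Y) := by
  subst e0 e1 e2 e3 e4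
  have key : -2 * ((p ^ 2 - a ^ 2) * (q ^ 2 + b ^ 2) * (r ^ 2 + c ^ 2) * (u ^ 2 + d ^ 2) + (p ^ 2 + a ^ 2) * (q ^ 2 - b ^ 2) * (r ^ 2 + c ^ 2) * (u ^ 2 + d ^ 2) + (p ^ 2 + a ^ 2) * (q ^ 2 + b ^ 2) * (r ^ 2 - c ^ 2) * (u ^ 2 + d ^ 2) + (p ^ 2 + a ^ 2) * (q ^ 2 + b ^ 2) * (r ^ 2 + c ^ 2) * (u ^ 2 - d ^ 2)) =
      2 * (((p * q * r * u) - (a * b * r * u + a * q * c * u + a * q * r * d + p * b * c * u + p * b * r * d + p * q * c * d) + (a * b * c * d)) * (4 * ((a * b * c * d) - (p * q * r * u))) - ((a * q * r * u + p * b * r * u + p * q * c * u + p * q * r * d) - (a * b * c * u + a * b * r * d + a * q * c * d + p * b * c * d)) * (2 * ((a * q * r * u + p * b * r * u + p * q * c * u + p * q * r * d) + (a * b * c * u + a * b * r * d + a * q * c * d + p * b * c * d)))) := by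
    ring
  rw [hp, hq, hr, hu] at key
  simp only [mul_one] at key
  linarith [key]

lemma id2 {p q r u a b c d x0 x1 x2 y0 Y : ℝ}
    (hp : p ^ 2 + a ^ 2 = 1) (hq : q ^ 2 + b ^ 2 = 1) (hr : r ^ 2 + c ^ 2 = 1)
    (hu : u ^ 2 + d ^ 2 = 1)
    (e0 : x0 = (p * q * r * u) - (a * b * r * u + a * q * c * u + a * q * r * d + p * b * c * u + p * b * r * d + p * q * c * d) + (a * b * c * d))
    (e1 : x1 = 4 * ((a * b * c * d) - (p * q * r * u)))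
    (e2 : x2 = 6 * (p * q * r * u) + 2 * (a * b * r * u + a * q * c * u + a * q * r * d + p * b * c * u + p * b * r * d + p * q * c * d) + 6 * (a * b * c * d))
    (e3 : y0 = (a * q * r * u + p * b * r * u + p * q * c * u + p * q * r * d) - (a * b * c * u + a * b * r * d + a * q * c * d + p * b * c * d))
    (e4 : Y = 2 * ((a * q * r * u + p * b * r * u + p * q * c * u + p * q * r * d) + (a * b * c * u + a * b * r * d + a * q * c * d + p * b * c * d))) :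
    4 + 4 * ((p ^ 2 - a ^ 2) * (q ^ 2 - b ^ 2) + (p ^ 2 - a ^ 2) * (r ^ 2 - c ^ 2) + (p ^ 2 - a ^ 2) * (u ^ 2 - d ^ 2) + (q ^ 2 - b ^ 2) * (r ^ 2 - c ^ 2) + (q ^ 2 - b ^ 2) * (u ^ 2 - d ^ 2) + (r ^ 2 - c ^ 2) * (u ^ 2 - d ^ 2)) =
      x1 ^ 2 + Y ^ 2 + 2 * x0 * x2 := by
  subst e0 e1 e2 e3 e4
  have key : 4 * ((p ^ 2 + a ^ 2) * (q ^ 2 + b ^ 2) * (r ^ 2 + c ^ 2) * (u ^ 2 + d ^ 2)) + 4 * ((p ^ 2 - a ^ 2) * (q ^ 2 - b ^ 2) * (r ^ 2 + c ^ 2) * (u ^ 2 + d ^ 2) + (p ^ 2 - a ^ 2) * (q ^ 2 + b ^ 2) * (r ^ 2 - c ^ 2) * (u ^ 2 + d ^ 2) + (p ^ 2 - a ^ 2) * (q ^ 2 + b ^ 2) * (r ^ 2 + c ^ 2) * (u ^ 2 - d ^ 2) + (p ^ 2 + a ^ 2) * (q ^ 2 - b ^ 2) * (r ^ 2 - c ^ 2) * (u ^ 2 + d ^ 2) + (p ^ 2 + a ^ 2) * (q ^ 2 - b ^ 2) * (r ^ 2 + c ^ 2) * (u ^ 2 - d ^ 2) + (p ^ 2 + a ^ 2) * (q ^ 2 + b ^ 2) * (r ^ 2 - c ^ 2) * (u ^ 2 - d ^ 2)) =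
      (4 * ((a * b * c * d) - (p * q * r * u))) ^ 2 + (2 * ((a * q * r * u + p * b * r * u + p * q * c * u + p * q * r * d) + (a * b * c * u + a * b * r * d + a * q * c * d + p * b * c * d))) ^ 2 + 2 * ((p * q * r * u) - (a * b * r * u + a * q * c * u + a * q * r * d + p * b * c * u + p * b * r * d + p * q * c * d) + (a * b * c * d)) * (6 * (p * q * r * u) + 2 * (a * b * r * u + a * q * c * u + a * q * r * d + p * b * c * u + p * b * r * d + p * q * c * d) + 6 * (a * b * c * d)) := by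
    ring
  rw [hp, hq, hr, hu] at key
  simp only [mul_one] at key
  linarith [key]

lemma id3 {p q r u a b c d x0 x1 x2 y0 Y : ℝ}
    (hp : p ^ 2 + a ^ 2 = 1) (hq : q ^ 2 + b ^ 2 = 1) (hr : r ^ 2 + c ^ 2 = 1)
    (hu : u ^ 2 + d ^ 2 = 1)
    (e0 : x0 = (p * q * r * u) - (a * b * r * u + a * q * c * u + a * q * r * d + p * b * c * u + p * b * r * d + p * q * c * d) + (a * b * c * d))
    (e1 : x1 = 4 * ((a * b * c * d) - (p * q * r * u)))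
    (e2 : x2 = 6 * (p * q * r * u) + 2 * (a * b * r * u + a * q * c * u + a * q * r * d + p * b * c * u + p * b * r * d + p * q * c * d) + 6 * (a * b * c * d))
    (e3 : y0 = (a * q * r * u + p * b * r * u + p * q * c * u + p * q * r * d) - (a * b * c * u + a * b * r * d + a * q * c * d + p * b * c * d))
    (e4 : Y = 2 * ((a * q * r * u + p * b * r * u + p * q * c * u + p * q * r * d) + (a * b * c * u + a * b * r * d + a * q * c * d + p * b * c * d))) :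
    -6 * ((p ^ 2 - a ^ 2) + (q ^ 2 - b ^ 2) + (r ^ 2 - c ^ 2) + (u ^ 2 - d ^ 2)) - 8 * ((p ^ 2 - a ^ 2) * (q ^ 2 - b ^ 2) * (r ^ 2 - c ^ 2) + (p ^ 2 - a ^ 2) * (q ^ 2 - b ^ 2) * (u ^ 2 - d ^ 2) + (p ^ 2 - a ^ 2) * (r ^ 2 - c ^ 2) * (u ^ 2 - d ^ 2) + (q ^ 2 - b ^ 2) * (r ^ 2 - c ^ 2) * (u ^ 2 - d ^ 2)) =
      2 * (x1 * (x0 + x2) + y0 * Y) := by
  subst e0 e1 e2 e3 e4
  have key : -6 * ((p ^ 2 - a ^ 2) * (q ^ 2 + b ^ 2) * (r ^ 2 + c ^ 2) * (u ^ 2 + d ^ 2) + (p ^ 2 + a ^ 2) * (q ^ 2 - b ^ 2) * (r ^ 2 + c ^ 2) * (u ^ 2 + d ^ 2) + (p ^ 2 + a ^ 2) * (q ^ 2 + b ^ 2) * (r ^ 2 - c ^ 2) * (u ^ 2 + d ^ 2) + (p ^ 2 + a ^ 2) * (q ^ 2 + b ^ 2) * (r ^ 2 + c ^ 2) * (u ^ 2 - d ^ 2)) - 8 * ((p ^ 2 - a ^ 2) * (q ^ 2 - b ^ 2) * (r ^ 2 - c ^ 2) * (u ^ 2 + d ^ 2) + (p ^ 2 - a ^ 2) * (q ^ 2 - b ^ 2) * (r ^ 2 + c ^ 2) * (u ^ 2 - d ^ 2) + (p ^ 2 - a ^ 2) * (q ^ 2 + b ^ 2) * (r ^ 2 -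 c ^ 2) * (u ^ 2 - d ^ 2) + (p ^ 2 + a ^ 2) * (q ^ 2 - b ^ 2) * (r ^ 2 - c ^ 2) * (u ^ 2 - d ^ 2)) =
      2 * ((4 * ((a * b * c * d) - (p * q * r * u))) * (((p * q * r * u) - (a * b * r * u + a * q * c * u + a * q * r * d + p * b * c * u + p * b * r * d + p * q * c * d) + (a * b * c * d)) + (6 * (p * q * r * u) + 2 * (a * b * r * u + a * q * c * u + a * q * r * d + p * b * c * u + p * b * r * d + p * q * c * d) + 6 * (a * b * c * d))) + ((a * q * r * u + p * b * r * u + p * q * c * u + p * q * r * d) - (a * b * c * u + a * b * r * d + a * q * c * d + p * b * c * d)) * (2 * ((a * q * r * u + p * b * r * u + p * q * c * u + p * q * r * d) + (a * b * c * u + a * b * r * d + a * q * c * d + p * b * c * d)))) := by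
    ring
  rw [hp, hq, hr, hu] at key
  simp only [mul_one] at key
  linarith [key]

lemma id4 {p q r u a b c d x0 x1 x2 y0 Y : ℝ}
    (hp : p ^ 2 + a ^ 2 = 1) (hq : q ^ 2 + b ^ 2 = 1) (hr : r ^ 2 + c ^ 2 = 1)
    (hu : u ^ 2 + d ^ 2 = 1)
    (e0 : x0 = (p * q * r * u) - (a * b * r * u + a * q * c * u + a * q * r * d + p * b * c * u + p * b * r * d + p * q * c * d) + (a * b * c * d))
    (e1 : x1 = 4 * ((a * b * c * d) - (p * q * r * u)))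
    (e2 : x2 = 6 * (p * q * r * u) + 2 * (a * b * r * u + a * q * c * u + a * q * r * d + p * b * c * u + p * b * r * d + p * q * c * d) + 6 * (a * b * c * d))
    (e3 : y0 = (a * q * r * u + p * b * r * u + p * q * c * u + p * q * r * d) - (a * b * c * u + a * b * r * d + a * q * c * d + p * b * c * d))
    (e4 : Y = 2 * ((a * q * r * u + p * b * r * u + p * q * c * u + p * q * r * d) + (a * b * c * u + a * b * r * d + a * q * c * d + p * b * c * d))) :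
    6 + 8 * ((p ^ 2 - a ^ 2) * (q ^ 2 - b ^ 2) + (p ^ 2 - a ^ 2) * (r ^ 2 - c ^ 2) + (p ^ 2 - a ^ 2) * (u ^ 2 - d ^ 2) + (q ^ 2 - b ^ 2) * (r ^ 2 - c ^ 2) + (q ^ 2 - b ^ 2) * (u ^ 2 - d ^ 2) + (r ^ 2 - c ^ 2) * (u ^ 2 - d ^ 2)) + 16 * ((p ^ 2 - a ^ 2) * (q ^ 2 - b ^ 2) * (r ^ 2 - c ^ 2) * (u ^ 2 - d ^ 2)) =
      2 * x0 ^ 2 + 2 * x1 ^ 2 + x2 ^ 2 - 2 * y0 ^ 2 - 2 * Y ^ 2 := by
  subst e0 e1 e2 e3 e4
  have key : 6 * ((p ^ 2 + a ^ 2) * (q ^ 2 + b ^ 2) * (r ^ 2 + c ^ 2) * (u ^ 2 + d ^ 2)) + 8 * ((p ^ 2 - a ^ 2) * (q ^ 2 - b ^ 2) * (r ^ 2 + c ^ 2) * (u ^ 2 + d ^ 2) + (p ^ 2 - a ^ 2) * (q ^ 2 + b ^ 2) * (r ^ 2 - c ^ 2) * (u ^ 2 + d ^ 2) + (p ^ 2 - a ^ 2) * (q ^ 2 + b ^ 2) * (r ^ 2 + c ^ 2) * (u ^ 2 - d ^ 2) + (p ^ 2 + a ^ 2) * (q ^ 2 - b ^ 2) * (r ^ 2 - c ^ 2) * (u ^ 2 + d ^ 2) + (p ^ 2 + a ^ 2) * (q ^ 2 - b ^ 2) * (r ^ 2 + c ^ 2) * (u ^ 2 - d ^ 2) + (p ^ 2 + a ^ 2)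 * (q ^ 2 + b ^ 2) * (r ^ 2 - c ^ 2) * (u ^ 2 - d ^ 2)) + 16 * ((p ^ 2 - a ^ 2) * (q ^ 2 - b ^ 2) * (r ^ 2 - c ^ 2) * (u ^ 2 - d ^ 2)) =
      2 * ((p * q * r * u) - (a * b * r * u + a * q * c * u + a * q * r * d + p * b * c * u + p * b * r * d + p * q * c * d) + (a * b * c * d)) ^ 2 + 2 * (4 * ((a * b * c * d) - (p * q * r * u))) ^ 2 + (6 * (p * q * r * u) + 2 * (a * b * r * u + a * q * c * u + a * q * r * d + p * b * c * u + p * b * r * d + p * q * c * d) + 6 * (a * b * c * d)) ^ 2 - 2 * ((a * q * r * u + p * b * r * u + p * q * c * u + p * q * r * d) - (a * b * c * u + a * b * r * d + a * q * c * d + p * b * c * d)) ^ 2 - 2 * (2 * ((a * q * r * u + p * b * r * u + p * q * c * u + p * q * r * d) + (a * b * c * u + a * b * r * d + a * q * c * d + p * b * c * d))) ^ 2 := by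
    ring
  rw [hp, hq, hr, hu] at key
  simp only [mul_one] at key
  linarith [key]

lemma idD0 {p q r u a b c d x0 x1 x2 y0 Y : ℝ}
    (hp : p ^ 2 + a ^ 2 = 1) (hq : q ^ 2 + b ^ 2 = 1) (hr : r ^ 2 + c ^ 2 = 1)
    (hu : u ^ 2 + d ^ 2 = 1)
    (e0 : x0 = (p * q * r * u) - (a * b * r * u + a * q * c * u + a * q * r * d + p * b * c * u + p * b * r * d + p * q * c * d) + (a * b * c * d))
    (e1 : x1 = 4 * ((a * b * c * d) - (p * q * r * u)))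
    (e2 : x2 = 6 * (p * q * r * u) + 2 * (a * b * r * u + a * q * c * u + a * q * r * d + p * b * c * u + p * b * r * d + p * q * c * d) + 6 * (a * b * c * d))
    (e3 : y0 = (a * q * r * u + p * b * r * u + p * q * c * u + p * q * r * d) - (a * b * c * u + a * b * r * d + a * q * c * d + p * b * c * d))
    (e4 : Y = 2 * ((a * q * r * u + p * b * r * u + p * q * c * u + p * q * r * d) + (a * b * c * u + a * b * r * d + a * q * c * d + p * b * c * d))) :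
    ((2 * a * p) + (2 * b * q) + (2 * c * r) + (2 * d * u)) =
      -(x0 * Y) - y0 * x1 := by
  subst e0 e1 e2 e3 e4
  have key : ((2 * a * p) * ((q ^ 2 + b ^ 2) * (r ^ 2 + c ^ 2) * (u ^ 2 + d ^ 2)) + (2 * b * q) * ((p ^ 2 + a ^ 2) * (r ^ 2 + c ^ 2) * (u ^ 2 + d ^ 2)) + (2 * c * r) * ((p ^ 2 + a ^ 2) * (q ^ 2 + b ^ 2) * (u ^ 2 + d ^ 2)) + (2 * d * u) * ((p ^ 2 + a ^ 2) * (q ^ 2 + b ^ 2) * (r ^ 2 + c ^ 2))) =
      -(((p * q * r * u) - (a * b * r * u + a * q * c * u + a * q * r * d + p * b * c * u + p * b * r * d + p * q * c * d) + (a * b * c * d)) * (2 * ((a * q * r * u + p * b * r * u + p * q * c * u + p * q * r * d) + (a * b * c * u + a * b * r * d + a * q * c * d + p * b * c * d)))) - ((a * q * r * u + p * b * r * u + p * q * c * u + p * q * r * d) - (a * b * c * u + a * b * r * d + a * q * c * d + p * b * c * d)) * (4 * ((a * b * c * d) - (p * q * r * u)))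 := by
    ring
  rw [hp, hq, hr, hu] at key
  simp only [mul_one] at key
  linarith [key]

lemma idD3 {p q r u a b c d x0 x1 x2 y0 Y : ℝ}
    (hp : p ^ 2 + a ^ 2 = 1) (hq : q ^ 2 + b ^ 2 = 1) (hr : r ^ 2 + c ^ 2 = 1)
    (hu : u ^ 2 + d ^ 2 = 1)
    (e0 : x0 = (p * q * r * u) - (a * b * r * u + a * q * c * u + a * q * r * d + p * b * c * u + p * b * r * d + p * q * c * d) + (a * b * c * d))
    (e1 : x1 = 4 * ((a * b * c * d) - (p * q * r * u)))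
    (e2 : x2 = 6 * (p * q * r * u) + 2 * (a * b * r * u + a * q * c * u + a * q * r * d + p * b * c * u + p * b * r * d + p * q * c * d) + 6 * (a * b * c * d))
    (e3 : y0 = (a * q * r * u + p * b * r * u + p * q * c * u + p * q * r * d) - (a * b * c * u + a * b * r * d + a * q * c * d + p * b * c * d))
    (e4 : Y = 2 * ((a * q * r * u + p * b * r * u + p * q * c * u + p * q * r * d) + (a * b * c * u + a * b * r * d + a * q * c * d + p * b * c * d))) :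
    6 * ((2 * a * p) + (2 * b * q) + (2 * c * r) + (2 * d * u)) + 8 * ((2 * a * p) * ((q ^ 2 - b ^ 2) * (r ^ 2 - c ^ 2) + (q ^ 2 - b ^ 2) * (u ^ 2 - d ^ 2) + (r ^ 2 - c ^ 2) * (u ^ 2 - d ^ 2)) + (2 * b * q) * ((p ^ 2 - a ^ 2) * (r ^ 2 - c ^ 2) + (p ^ 2 - a ^ 2) * (u ^ 2 - d ^ 2) + (r ^ 2 - c ^ 2) * (u ^ 2 - d ^ 2)) + (2 * c * r) * ((p ^ 2 - a ^ 2) * (q ^ 2 - b ^ 2) + (p ^ 2 - a ^ 2) * (u ^ 2 - d ^ 2) + (q ^ 2 - b ^ 2) * (u ^ 2 - d ^ 2)) + (2 * d * u) * ((p ^ 2 - a ^ 2) * (q ^ 2 - b ^ 2) + (p ^ 2 - a ^ 2) * (r ^ 2 - c ^ 2) + (q ^ 2 - b ^ 2) * (r ^ 2 - c ^ 2))) =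
      2 * (3 * x0 * Y - 3 * x1 * y0 + x2 * Y) := by
  subst e0 e1 e2 e3 e4
  have key : 6 * ((2 * a * p) * ((q ^ 2 + b ^ 2) * (r ^ 2 + c ^ 2) * (u ^ 2 + d ^ 2)) + (2 * b * q) * ((p ^ 2 + a ^ 2) * (r ^ 2 + c ^ 2) * (u ^ 2 + d ^ 2)) + (2 * c * r) * ((p ^ 2 + a ^ 2) * (q ^ 2 + b ^ 2) * (u ^ 2 + d ^ 2)) + (2 * d * u) * ((p ^ 2 + a ^ 2) * (q ^ 2 + b ^ 2) * (r ^ 2 + c ^ 2))) + 8 * ((2 * a * p) * ((q ^ 2 - b ^ 2) * (r ^ 2 - c ^ 2) * (u ^ 2 + d ^ 2) + (q ^ 2 - b ^ 2) * (r ^ 2 + c ^ 2) * (u ^ 2 - d ^ 2) + (q ^ 2 + b ^ 2) * (r ^ 2 - c ^ 2) * (u ^ 2 - d ^ 2)) + (2 * b * q) * ((p ^ 2 - a ^ 2) * (r ^ 2 - c ^ 2) * (u ^ 2 + d ^ 2) + (p ^ 2 - a ^ 2) * (r ^ 2 + c ^ 2) * (u ^ 2 - d ^ 2) + (p ^ 2 + a ^ 2) * (r ^ 2 - c ^ 2) * (u ^ 2 - d ^ 2)) + (2 * c * r) * ((p ^ 2 - a ^ 2) * (q ^ 2 - b ^ 2) * (u ^ 2 + d ^ 2) + (p ^ 2 - a ^ 2) * (q ^ 2 + b ^ 2) * (u ^ 2 - d ^ 2) + (p ^ 2 + a ^ 2)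 * (q ^ 2 - b ^ 2) * (u ^ 2 - d ^ 2)) + (2 * d * u) * ((p ^ 2 - a ^ 2) * (q ^ 2 - b ^ 2) * (r ^ 2 + c ^ 2) + (p ^ 2 - a ^ 2) * (q ^ 2 + b ^ 2) * (r ^ 2 - c ^ 2) + (p ^ 2 + a ^ 2) * (q ^ 2 - b ^ 2) * (r ^ 2 - c ^ 2))) =
      2 * (3 * ((p * q * r * u) - (a * b * r * u + a * q * c * u + a * q * r * d + p * b * c * u + p * b * r * d + p * q * c * d) + (a * b * c * d)) * (2 * ((a * q * r * u + p * b * r * u + p * q * c * u + p * q * r * d) + (a * b * c * u + a * b * r * d + a * q * c * d + p * b * c * d))) - 3 * (4 * ((a * b * c * d) - (p * q * r * u))) * ((a * q * r * u + p * b * r * u + p * q * c * u + p * q * r * d) - (a * b * c * u + a * b * r * d + a * q * c * d + p * b * c * d)) + (6 * (p * q * r * u) + 2 * (a * b * r * u + a * q * c * u + a * q * r * d + p * b * c * u + p * b * r * d + p * q * c * d) + 6 * (a * b * c * d)) * (2 * ((a * q * r * u + p * b * r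 * u + p * q * c * u + p * q * r * d) + (a * b * c * u + a * b * r * d + a * q * c * d + p * b * c * d)))) := by
    ring
  rw [hp, hq, hr, hu] at key
  simp only [mul_one] at key
  linarith [key]

lemma idD4 {p q r u a b c d x0 x1 x2 y0 Y : ℝ}
    (hp : p ^ 2 + a ^ 2 = 1) (hq : q ^ 2 + b ^ 2 = 1) (hr : r ^ 2 + c ^ 2 = 1)
    (hu : u ^ 2 + d ^ 2 = 1)
    (e0 : x0 = (p * q * r * u) - (a * b * r * u + a * q * c * u + a * q * r * d + p * b * c * u + p * b * r * d + p * q * c * d) + (a * b * c * d))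
    (e1 : x1 = 4 * ((a * b * c * d) - (p * q * r * u)))
    (e2 : x2 = 6 * (p * q * r * u) + 2 * (a * b * r * u + a * q * c * u + a * q * r * d + p * b * c * u + p * b * r * d + p * q * c * d) + 6 * (a * b * c * d))
    (e3 : y0 = (a * q * r * u + p * b * r * u + p * q * c * u + p * q * r * d) - (a * b * c * u + a * b * r * d + a * q * c * d + p * b * c * d))
    (e4 : Y = 2 * ((a * q * r * u + p * b * r * u + p * q * c * u + p * q * r * d) + (a * b * c * u + a * b * r * d + a * q * c * d + p * b * c * d))) :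
    -8 * ((2 * a * p) * ((q ^ 2 - b ^ 2) + (r ^ 2 - c ^ 2) + (u ^ 2 - d ^ 2)) + (2 * b * q) * ((p ^ 2 - a ^ 2) + (r ^ 2 - c ^ 2) + (u ^ 2 - d ^ 2)) + (2 * c * r) * ((p ^ 2 - a ^ 2) + (q ^ 2 - b ^ 2) + (u ^ 2 - d ^ 2)) + (2 * d * u) * ((p ^ 2 - a ^ 2) + (q ^ 2 - b ^ 2) + (r ^ 2 - c ^ 2))) - 16 * ((2 * a * p) * ((q ^ 2 - b ^ 2) * (r ^ 2 - c ^ 2) * (u ^ 2 - d ^ 2)) + (2 * b * q) * ((p ^ 2 - a ^ 2) * (r ^ 2 - c ^ 2) * (u ^ 2 - d ^ 2)) + (2 * c * r) * ((p ^ 2 - a ^ 2) * (q ^ 2 - b ^ 2) * (u ^ 2 - d ^ 2)) + (2 * d * u) * ((p ^ 2 - a ^ 2) * (q ^ 2 - b ^ 2) * (r ^ 2 - c ^ 2))) =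
      2 * (-8 * x0 * y0 + 4 * x1 * Y) := by
  subst e0 e1 e2 e3 e4
  have key : -8 * ((2 * a * p) * ((q ^ 2 - b ^ 2) * (r ^ 2 + c ^ 2) * (u ^ 2 + d ^ 2) + (q ^ 2 + b ^ 2) * (r ^ 2 - c ^ 2) * (u ^ 2 + d ^ 2) + (q ^ 2 + b ^ 2) * (r ^ 2 + c ^ 2) * (u ^ 2 - d ^ 2)) + (2 * b * q) * ((p ^ 2 - a ^ 2) * (r ^ 2 + c ^ 2) * (u ^ 2 + d ^ 2) + (p ^ 2 + a ^ 2) * (r ^ 2 - c ^ 2) * (u ^ 2 + d ^ 2) + (p ^ 2 + a ^ 2) * (r ^ 2 + c ^ 2) * (u ^ 2 - d ^ 2)) + (2 * c * r) * ((p ^ 2 - a ^ 2) * (q ^ 2 + b ^ 2) * (u ^ 2 + d ^ 2) + (p ^ 2 + a ^ 2) * (q ^ 2 - b ^ 2) * (u ^ 2 + d ^ 2) + (p ^ 2 + a ^ 2) * (q ^ 2 + b ^ 2) * (u ^ 2 - d ^ 2)) + (2 * d * u) * ((p ^ 2 - a ^ 2) * (q ^ 2 + b ^ 2) * (r ^ 2 + c ^ 2) + (p ^ 2 + a ^ 2) * (q ^ 2 - b ^ 2) * (r ^ 2 + c ^ 2) + (p ^ 2 + a ^ 2) * (q ^ 2 + b ^ 2) * (r ^ 2 - c ^ 2))) - 16 * ((2 * a * p) * ((q ^ 2 - b ^ 2) * (r ^ 2 - c ^ 2) * (u ^ 2 - d ^ 2))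 + (2 * b * q) * ((p ^ 2 - a ^ 2) * (r ^ 2 - c ^ 2) * (u ^ 2 - d ^ 2)) + (2 * c * r) * ((p ^ 2 - a ^ 2) * (q ^ 2 - b ^ 2) * (u ^ 2 - d ^ 2)) + (2 * d * u) * ((p ^ 2 - a ^ 2) * (q ^ 2 - b ^ 2) * (r ^ 2 - c ^ 2))) =
      2 * (-8 * ((p * q * r * u) - (a * b * r * u + a * q * c * u + a * q * r * d + p * b * c * u + p * b * r * d + p * q * c * d) + (a * b * c * d)) * ((a * q * r * u + p * b * r * u + p * q * c * u + p * q * r * d) - (a * b * c * u + a * b * r * d + a * q * c * d + p * b * c * d)) + 4 * (4 * ((a * b * c * d) - (p * q * r * u))) * (2 * ((a * q * r * u + p * b * r * u + p * q * c * u + p * q * r * d) + (a * b * c * u + a * b * r * d + a * q * c * d + p * b * c * d)))) := by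
    ring
  rw [hp, hq, hr, hu] at key
  simp only [mul_one] at key
  linarith [key]

end Pool.Agent.MP_fe2d2a_anF
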