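import Mathlib
import Pool.Agent.Lib.MP_fe2d2a_anEC.Three
import Pool.Agent.Lib.MP_fe2d2a_anF.FourIneq

/-!
Four pairs of zeros.
-/

set_option autoImplicit false

open Finset Polynomial Set

namespace Pool.Agent.MP_fe2d2a_anF

open Pool.Agent.MP_fe2d2a_anEC

variable {ι : Type*} [DecidableEq ι]

/-- The product of four factors. -/
lemma four_expand (x y z w : ℝ) (j : ℕ) :
    (((X : ℝ[X]) ^ 2 - C (2 * x) * X + 1) * ((X ^ 2 - C (2 * y) * X + 1) *
      ((X ^ 2 - C (2 * z) * X + 1) * (X ^ 2 - C (2 * w) * X + 1)))).coeff j =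
      (X ^ 8 + 1 : ℝ[X]).coeff j + (-2 * (x + y + z + w)) * (X ^ 7 + X : ℝ[X]).coeff j +
        (4 + 4 * (x * y + x * z + x * w + y * z + y * w + z * w)) *
          (X ^ 6 + X ^ 2 : ℝ[X]).coeff j +
        (-6 * (x + y + z + w) - 8 * (x * y * z + x * y * w + x * z * w + y * z * w)) *
          (X ^ 5 + X ^ 3 : ℝ[X]).coeff j +
        (6 + 8 * (x * y + x * z + x * w + y * z + y * w + z * w) + 16 * (x * y * z * w)) *
          (X ^ 4 : ℝ[X]).coeff j := by
  rw [← coeff_C_mul, ← coeff_C_mul, ← coeff_C_mul, ← coeff_C_mul, ← coeff_add, ← coeff_add,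
    ← coeff_add, ← coeff_add]
  congr 1
  simp only [C_mul, C_add, C_sub, C_neg, map_ofNat]
  ring

/-- The derivatives of the coefficients of index `3` and `4` are positive, or the coefficients of
odd index vanish. -/
lemma four_pos {a₁ a₂ a₃ a₄ : ℝ} (h₁ : 0 < a₁ ∧ a₁ < Real.pi) (h₂ : 0 < a₂ ∧ a₂ < Real.pi)
    (h₃ : 0 < a₃ ∧ a₃ < Real.pi) (h₄ : 0 < a₄ ∧ a₄ < Real.pi)
    {x y z w s₁ s₂ s₃ s₄ : ℝ} (hx : x = Real.cos a₁) (hy : y = Real.cos a₂) (hz : z = Real.cos a₃)
    (hw : w = Real.cos a₄) (k₁ : s₁ = Real.sin a₁) (k₂ : s₂ = Real.sin a₂) (k₃ : s₃ = Real.sin a₃)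
    (k₄ : s₄ = Real.sin a₄)
    (p1 : 0 ≤ -2 * (x + y + z + w))
    (p2 : 0 ≤ 4 + 4 * (x * y + x * z + x * w + y * z + y * w + z * w))
    (p3 : 0 ≤ -6 * (x + y + z + w) - 8 * (x * y * z + x * y * w + x * z * w + y * z * w))
    (p4 : 0 ≤ 6 + 8 * (x * y + x * z + x * w + y * z + y * w + z * w) + 16 * (x * y * z * w)) :
    0 < 6 * (s₁ + s₂ + s₃ + s₄) + 8 * (s₁ * (y * z + y * w + z * w) +
      s₂ * (x * z + x * w + z * w) + s₃ * (x * y + x * w + y * w) +
      s₄ * (x * y + x * z + y * z)) ∧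
    (0 < -8 * (s₁ * (y + z + w) + s₂ * (x + z + w) + s₃ * (x + y + w) + s₄ * (x + y + z)) -
      16 * (s₁ * (y * z * w) + s₂ * (x * z * w) + s₃ * (x * y * w) + s₄ * (x * y * z)) ∨
      (x + y + z + w = 0 ∧ x * y * z + x * y * w + x * z * w + y * z * w = 0)) := by
  obtain ⟨p, a, hp, ha, e1, ec1, es1⟩ : ∃ p a : ℝ, 0 < p ∧ 0 < a ∧ p ^ 2 + a ^ 2 = 1 ∧
      x = p ^ 2 - a ^ 2 ∧ s₁ = 2 * a * p := by
    refine ⟨Real.cos (a₁ / 2), Real.sin (a₁ / 2), Real.cos_pos_of_mem_Ioo ⟨by linarith, by linarith⟩,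
      Real.sin_pos_of_pos_of_lt_pi (by linarith) (by linarith), ?_, ?_, ?_⟩
    · rw [add_comm]
      exact Real.sin_sq_add_cos_sq _
    · rw [hx, ← Real.cos_two_mul']
      congr 1
      ring
    · rw [k₁, ← Real.sin_two_mul]
      congr 1
      ring
  obtain ⟨q, b, hq, hb, e2, ec2, es2⟩ : ∃ p a : ℝ, 0 < p ∧ 0 < a ∧ p ^ 2 + a ^ 2 = 1 ∧
      y = p ^ 2 - a ^ 2 ∧ s₂ = 2 * a * p := by
    refine ⟨Real.cos (a₂ / 2), Real.sin (a₂ / 2), Real.cos_pos_of_mem_Ioo ⟨by linarith, by linarith⟩,
      Real.sin_pos_of_pos_of_lt_pi (by linarith) (by linarith), ?_, ?_, ?_⟩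
    · rw [add_comm]
      exact Real.sin_sq_add_cos_sq _
    · rw [hy, ← Real.cos_two_mul']
      congr 1
      ring
    · rw [k₂, ← Real.sin_two_mul]
      congr 1
      ring
  obtain ⟨r, c, hr, hc, e3, ec3, es3⟩ : ∃ p a : ℝ, 0 < p ∧ 0 < a ∧ p ^ 2 + a ^ 2 = 1 ∧
      z = p ^ 2 - a ^ 2 ∧ s₃ = 2 * a * p := by
    refine ⟨Real.cos (a₃ / 2), Real.sin (a₃ / 2), Real.cos_pos_of_mem_Ioo ⟨by linarith, by linarith⟩,
      Real.sin_pos_of_pos_of_lt_pi (by linarith) (by linarith), ?_, ?_, ?_⟩
    · rw [add_comm]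
      exact Real.sin_sq_add_cos_sq _
    · rw [hz, ← Real.cos_two_mul']
      congr 1
      ring
    · rw [k₃, ← Real.sin_two_mul]
      congr 1
      ring
  obtain ⟨u, d, hu, hd, e4, ec4, es4⟩ : ∃ p a : ℝ, 0 < p ∧ 0 < a ∧ p ^ 2 + a ^ 2 = 1 ∧
      w = p ^ 2 - a ^ 2 ∧ s₄ = 2 * a * p := by
    refine ⟨Real.cos (a₄ / 2), Real.sin (a₄ / 2), Real.cos_pos_of_mem_Ioo ⟨by linarith, by linarith⟩,
      Real.sin_pos_of_pos_of_lt_pi (by linarith) (by linarith), ?_, ?_, ?_⟩
    · rw [add_comm]
      exact Real.sin_sq_add_cos_sq _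
    · rw [hw, ← Real.cos_two_mul']
      congr 1
      ring
    · rw [k₄, ← Real.sin_two_mul]
      congr 1
      ring
  clear hx hy hz hw k₁ k₂ k₃ k₄ h₁ h₂ h₃ h₄
  subst ec1 ec2 ec3 ec4 es1 es2 es3 es4
  obtain ⟨x0, x1, x2, y0, Y, f0, f1, f2, f3, f4⟩ : ∃ x0 x1 x2 y0 Y : ℝ,
      x0 = (p * q * r * u) - (a * b * r * u + a * q * c * u + a * q * r * d + p * b * c * u + p * b * r * d + p * q * c * d) + (a * b * c * d) ∧
      x1 = 4 * ((a * b * c * d) - (p * q * r * u)) ∧
      x2 = 6 * (p * q * r * u) + 2 * (a * b * r * u + a * q * c * u + a * q * r * d + p * b * c * u + p * b * r * d + p * q * c * d) + 6 * (a * b * c * d) ∧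
      y0 = (a * q * r * u + p * b * r * u + p * q * c * u + p * q * r * d) - (a * b * c * u + a * b * r * d + a * q * c * d + p * b * c * d) ∧
      Y = 2 * ((a * q * r * u + p * b * r * u + p * q * c * u + p * q * r * d) + (a * b * c * u + a * b * r * d + a * q * c * d + p * b * c * d)) :=
    ⟨_, _, _, _, _, rfl, rfl, rfl, rfl, rfl⟩
  have i1 := id1 e1 e2 e3 e4 f0 f1 f2 f3 f4
  have i2 := id2 e1 e2 e3 e4 f0 f1 f2 f3 f4
  have i3 := id3 e1 e2 e3 e4 f0 f1 f2 f3 f4
  have i4 := id4 e1 e2 e3 e4 f0 f1 f2 f3 f4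
  have j0 := idD0 e1 e2 e3 e4 f0 f1 f2 f3 f4
  have j3 := idD3 e1 e2 e3 e4 f0 f1 f2 f3 f4
  have j4 := idD4 e1 e2 e3 e4 f0 f1 f2 f3 f4
  have t0 : 0 < p * q * r * u := by positivity
  have t4 : 0 < a * b * c * d := by positivity
  have t1 : 0 < a * q * r * u + p * b * r * u + p * q * c * u + p * q * r * d := by positivity
  have t3 : 0 < a * b * c * u + a * b * r * d + a * q * c * d + p * b * c * d := by positivity
  have w0 : 0 < 2 * a * p + 2 * b * q + 2 * c * r + 2 * d * u := by positivity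
  obtain ⟨m1, m2⟩ := four_core (x0 := x0) (x1 := x1) (x2 := x2) (y0 := y0) (Y := Y)
    (by rw [f0, f1, f2]; linarith) (by rw [f0, f1, f2]; linarith)
    (by rw [f3, f4]; linarith) (by rw [f3, f4]; linarith)
    (by linarith) (by linarith) (by linarith) (by linarith) (by linarith)
  refine ⟨by linarith, ?_⟩
  rcases m2 with m2 | ⟨m2, m3⟩
  · left
    linarith
  · right
    rw [m2, m3] at i1 i3
    constructor <;> linarith

/-- Four pairs of zeros. -/
lemma four_block (a : ι → ℝ) (A : Finset ι) (ha : ∀ k ∈ A, 0 < a k ∧ a k < Real.pi)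
    (hpos : ∀ j, 0 ≤ (RP a A 0).coeff j) (hcard : A.card = 4) :
    ∃ ε > (0 : ℝ), ∀ j, MonotoneOn (fun t : ℝ => (RP a A t).coeff j) (Icc 0 ε) := by
  obtain ⟨k, B, hkB, hA, hB⟩ := Finset.card_eq_succ.1 hcard
  obtain ⟨l, m, o, hlm, hlo, hmo, hB2⟩ := Finset.card_eq_three.1 hB
  have hak := ha k (by rw [← hA]; simp)
  have hal := ha l (by rw [← hA, hB2]; simp)
  have ham := ha m (by rw [← hA, hB2]; simp)
  have hao := ha o (by rw [← hA, hB2]; simp)
  have e0 : ∀ t, RP a A t = (X ^ 2 - C (2 * Real.cos (t + a k)) * X + 1) *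
      ((X ^ 2 - C (2 * Real.cos (t + a l)) * X + 1) *
        ((X ^ 2 - C (2 * Real.cos (t + a m)) * X + 1) *
          (X ^ 2 - C (2 * Real.cos (t + a o)) * X + 1))) := by
    intro t
    unfold RP
    rw [← hA, Finset.prod_insert hkB, hB2, Finset.prod_insert (by simp [hlm, hlo]),
      Finset.prod_pair hmo]
  have e : ∀ t j, (RP a A t).coeff j =
      (X ^ 8 + 1 : ℝ[X]).coeff j +
      (-2 * (Real.cos (t + a k) + Real.cos (t + a l) + Real.cos (t + a m) + Real.cos (t + a o))) *
        (X ^ 7 + X : ℝ[X]).coeff j +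
      (4 + 4 * (Real.cos (t + a k) * Real.cos (t + a l) + Real.cos (t + a k) * Real.cos (t + a m) +
        Real.cos (t + a k) * Real.cos (t + a o) + Real.cos (t + a l) * Real.cos (t + a m) +
        Real.cos (t + a l) * Real.cos (t + a o) + Real.cos (t + a m) * Real.cos (t + a o))) *
        (X ^ 6 + X ^ 2 : ℝ[X]).coeff j +
      (-6 * (Real.cos (t + a k) + Real.cos (t + a l) + Real.cos (t + a m) + Real.cos (t + a o)) -
        8 * (Real.cos (t + a k) * Real.cos (t + a l) * Real.cos (t + a m) +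
          Real.cos (t + a k) * Real.cos (t + a l) * Real.cos (t + a o) +
          Real.cos (t + a k) * Real.cos (t + a m) * Real.cos (t + a o) +
          Real.cos (t + a l) * Real.cos (t + a m) * Real.cos (t + a o))) *
        (X ^ 5 + X ^ 3 : ℝ[X]).coeff j +
      (6 + 8 * (Real.cos (t + a k) * Real.cos (t + a l) + Real.cos (t + a k) * Real.cos (t + a m) +
        Real.cos (t + a k) * Real.cos (t + a o) + Real.cos (t + a l) * Real.cos (t + a m) +
        Real.cos (t + a l) * Real.cos (t + a o) + Real.cos (t + a m) * Real.cos (t + a o)) +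
        16 * (Real.cos (t + a k) * Real.cos (t + a l) * Real.cos (t + a m) *
          Real.cos (t + a o))) * (X ^ 4 : ℝ[X]).coeff j := by
    intro t j
    rw [e0, four_expand]
  have b6 : ∀ j : ℕ, 0 ≤ (X ^ 7 + X : ℝ[X]).coeff j ∧ 0 ≤ (X ^ 6 + X ^ 2 : ℝ[X]).coeff j ∧
      0 ≤ (X ^ 5 + X ^ 3 : ℝ[X]).coeff j ∧ 0 ≤ (X ^ 4 : ℝ[X]).coeff j := by
    intro j
    simp only [coeff_add, coeff_X_pow, coeff_X]
    refine ⟨?_, ?_, ?_, ?_⟩ <;> split_ifs <;> norm_num
  have v1 : ∀ t, (RP a A t).coeff 1 =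
      -2 * (Real.cos (t + a k) + Real.cos (t + a l) + Real.cos (t + a m) + Real.cos (t + a o)) := by
    intro t
    rw [e]
    simp [coeff_X_pow, coeff_X, coeff_one]
  have v2 : ∀ t, (RP a A t).coeff 2 =
      4 + 4 * (Real.cos (t + a k) * Real.cos (t + a l) + Real.cos (t + a k) * Real.cos (t + a m) +
        Real.cos (t + a k) * Real.cos (t + a o) + Real.cos (t + a l) * Real.cos (t + a m) +
        Real.cos (t + a l) * Real.cos (t + a o) + Real.cos (t + a m) * Real.cos (t + a o)) := by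
    intro t
    rw [e]
    simp [coeff_X_pow, coeff_X, coeff_one]
  have v3 : ∀ t, (RP a A t).coeff 3 =
      -6 * (Real.cos (t + a k) + Real.cos (t + a l) + Real.cos (t + a m) + Real.cos (t + a o)) -
        8 * (Real.cos (t + a k) * Real.cos (t + a l) * Real.cos (t + a m) +
          Real.cos (t + a k) * Real.cos (t + a l) * Real.cos (t + a o) +
          Real.cos (t + a k) * Real.cos (t + a m) * Real.cos (t + a o) +
          Real.cos (t + a l) * Real.cos (t + a m) * Real.cos (t + a o)) := by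
    intro t
    rw [e]
    simp [coeff_X_pow, coeff_X, coeff_one]
  have v4 : ∀ t, (RP a A t).coeff 4 =
      6 + 8 * (Real.cos (t + a k) * Real.cos (t + a l) + Real.cos (t + a k) * Real.cos (t + a m) +
        Real.cos (t + a k) * Real.cos (t + a o) + Real.cos (t + a l) * Real.cos (t + a m) +
        Real.cos (t + a l) * Real.cos (t + a o) + Real.cos (t + a m) * Real.cos (t + a o)) +
        16 * (Real.cos (t + a k) * Real.cos (t + a l) * Real.cos (t + a m) *
          Real.cos (t + a o)) := by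
    intro t
    rw [e]
    simp [coeff_X_pow, coeff_X, coeff_one]
  -- the coefficients of index `1` and `2`
  obtain ⟨ε1, hε1, hm1⟩ : ∃ ε > (0 : ℝ), ∀ j ≤ 2,
      MonotoneOn (fun t : ℝ => (RP a A t).coeff j) (Icc 0 ε) := by
    have e3 : ∀ t, RP a A t = ∏ i : Fin 4, ((X : ℝ[X]) ^ 2 -
        C (2 * Real.cos (t + ![a k, a l, a m, a o] i)) * X + 1) := by
      intro t
      rw [e0, Fin.prod_univ_four, mul_assoc, mul_assoc]
      rfl
    have h0 : ∀ x : ℝ, 0 < x → (RP a A 0).eval (-x) ≤ (RP a A 0).eval x := by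
      intro x hx
      rw [eval_eq_sum_range, eval_eq_sum_range]
      apply Finset.sum_le_sum
      intro j _
      apply mul_le_mul_of_nonneg_left _ (hpos j)
      calc (-x) ^ j ≤ |(-x) ^ j| := le_abs_self _
        _ = x ^ j := by rw [abs_pow, abs_neg, abs_of_pos hx]
    obtain ⟨ε, hε, h1, -, -⟩ := Pool.Agent.Results.MP_fe2d2a_an.EvenPart.result 4
      ![a k, a l, a m, a o] (by
        intro i
        fin_cases i
        · exact hak
        · exact hal
        · exact ham
        · exact hao) (by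
        intro x hx
        have h2 := h0 x hx
        rw [e3] at h2
        simpa only [zero_add] using h2)
    refine ⟨ε, hε, fun j hj => ?_⟩
    simp only [e3]
    exact h1 j (Or.inl hj)
  -- the derivatives
  have hd : ∀ b t : ℝ, HasDerivAt (fun t => Real.cos (t + b)) (-Real.sin (t + b)) t := by
    intro b t
    have := (Real.hasDerivAt_cos (t + b)).comp_add_const t b
    exact this
  have p1 := hpos 1
  have p2 := hpos 2
  have p3 := hpos 3
  have p4 := hpos 4
  rw [v1] at p1
  rw [v2] at p2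
  rw [v3] at p3
  rw [v4] at p4
  simp only [zero_add] at p1 p2 p3 p4
  obtain ⟨q3, q4⟩ := four_pos hak hal ham hao rfl rfl rfl rfl rfl rfl rfl rfl p1 p2 p3 p4
  rcases q4 with q4 | ⟨q4, q5⟩
  · obtain ⟨ε2, hε2, hm2⟩ : ∃ ε > (0 : ℝ),
        MonotoneOn (fun t : ℝ => (RP a A t).coeff 3) (Icc 0 ε) := by
      simp only [v3]
      apply mono_of_deriv_pos (f' := fun t =>
        -6 * (-Real.sin (t + a k) + -Real.sin (t + a l) + -Real.sin (t + a m) +
          -Real.sin (t + a o)) -
        8 * (((-Real.sin (t + a k) * Real.cos (t + a l) +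
            Real.cos (t + a k) * -Real.sin (t + a l)) * Real.cos (t + a m) +
            Real.cos (t + a k) * Real.cos (t + a l) * -Real.sin (t + a m)) +
          ((-Real.sin (t + a k) * Real.cos (t + a l) +
            Real.cos (t + a k) * -Real.sin (t + a l)) * Real.cos (t + a o) +
            Real.cos (t + a k) * Real.cos (t + a l) * -Real.sin (t + a o)) +
          ((-Real.sin (t + a k) * Real.cos (t + a m) +
            Real.cos (t + a k) * -Real.sin (t + a m)) * Real.cos (t + a o) +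
            Real.cos (t + a k) * Real.cos (t + a m) * -Real.sin (t + a o)) +
          ((-Real.sin (t + a l) * Real.cos (t + a m) +
            Real.cos (t + a l) * -Real.sin (t + a m)) * Real.cos (t + a o) +
            Real.cos (t + a l) * Real.cos (t + a m) * -Real.sin (t + a o))))
      · intro t
        exact (((((hd (a k) t).add (hd (a l) t)).add (hd (a m) t)).add
          (hd (a o) t)).const_mul (-6)).sub
          ((((((hd (a k) t).mul (hd (a l) t)).mul (hd (a m) t)).add
            (((hd (a k) t).mul (hd (a l) t)).mul (hd (a o) t))).add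
            (((hd (a k) t).mul (hd (a m) t)).mul (hd (a o) t))).add
            (((hd (a l) t).mul (hd (a m) t)).mul (hd (a o) t)) |>.const_mul 8)
      · fun_prop
      · simp only [zero_add]
        nlinarith [q3]
    obtain ⟨ε3, hε3, hm3⟩ : ∃ ε > (0 : ℝ),
        MonotoneOn (fun t : ℝ => (RP a A t).coeff 4) (Icc 0 ε) := by
      simp only [v4]
      apply mono_of_deriv_pos (f' := fun t =>
        8 * ((((((-Real.sin (t + a k) * Real.cos (t + a l) +
            Real.cos (t + a k) * -Real.sin (t + a l)) +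
          (-Real.sin (t + a k) * Real.cos (t + a m) +
            Real.cos (t + a k) * -Real.sin (t + a m))) +
          (-Real.sin (t + a k) * Real.cos (t + a o) +
            Real.cos (t + a k) * -Real.sin (t + a o))) +
          (-Real.sin (t + a l) * Real.cos (t + a m) +
            Real.cos (t + a l) * -Real.sin (t + a m))) +
          (-Real.sin (t + a l) * Real.cos (t + a o) +
            Real.cos (t + a l) * -Real.sin (t + a o))) +
          (-Real.sin (t + a m) * Real.cos (t + a o) +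
            Real.cos (t + a m) * -Real.sin (t + a o))) +
        16 * (((-Real.sin (t + a k) * Real.cos (t + a l) +
            Real.cos (t + a k) * -Real.sin (t + a l)) * Real.cos (t + a m) +
            Real.cos (t + a k) * Real.cos (t + a l) * -Real.sin (t + a m)) * Real.cos (t + a o) +
            Real.cos (t + a k) * Real.cos (t + a l) * Real.cos (t + a m) * -Real.sin (t + a o)))
      · intro t
        exact (((((((hd (a k) t).mul (hd (a l) t)).add ((hd (a k) t).mul (hd (a m) t))).add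
          ((hd (a k) t).mul (hd (a o) t))).add ((hd (a l) t).mul (hd (a m) t))).add
          ((hd (a l) t).mul (hd (a o) t))).add ((hd (a m) t).mul (hd (a o) t)) |>.const_mul 8
          |>.const_add 6).add
          (((((hd (a k) t).mul (hd (a l) t)).mul (hd (a m) t)).mul (hd (a o) t)).const_mul 16)
      · fun_prop
      · simp only [zero_add]
        nlinarith [q4]
    refine ⟨min ε1 (min ε2 ε3), by positivity, fun j => ?_⟩
    have g1 : min ε1 (min ε2 ε3) ≤ ε1 := min_le_left _ _
    have g2 : min ε1 (min ε2 ε3) ≤ ε2 := (min_le_right _ _).trans (min_le_left _ _)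
    have g3 : min ε1 (min ε2 ε3) ≤ ε3 := (min_le_right _ _).trans (min_le_right _ _)
    have n1 := (hm1 1 (by norm_num)).mono (Icc_subset_Icc le_rfl g1)
    have n2 := (hm1 2 (by norm_num)).mono (Icc_subset_Icc le_rfl g1)
    have n3 := hm2.mono (Icc_subset_Icc le_rfl g2)
    have n4 := hm3.mono (Icc_subset_Icc le_rfl g3)
    intro x hx y hy hxy
    have q1 := n1 hx hy hxy
    have q2 := n2 hx hy hxy
    have q3' := n3 hx hy hxy
    have q4' := n4 hx hy hxy
    simp only [v1] at q1
    simp only [v2] at q2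
    simp only [v3] at q3'
    simp only [v4] at q4'
    simp only [e]
    obtain ⟨r1, r2, r3, r4⟩ := b6 j
    have w1 := mul_le_mul_of_nonneg_right q1 r1
    have w2 := mul_le_mul_of_nonneg_right q2 r2
    have w3 := mul_le_mul_of_nonneg_right q3' r3
    have w4 := mul_le_mul_of_nonneg_right q4' r4
    linarith
  · -- the polynomial is even
    apply even_block a A ha hpos
    intro j hj
    rw [e]
    simp only [zero_add]
    have z1 : (X ^ 8 + 1 : ℝ[X]).coeff j = 0 := by
      simp only [coeff_add, coeff_X_pow, coeff_one]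
      rw [if_neg, if_neg]
      · norm_num
      · rintro rfl
        exact absurd hj (by decide)
      · rintro rfl
        exact absurd hj (by decide)
    have z2 : (X ^ 6 + X ^ 2 : ℝ[X]).coeff j = 0 := by
      simp only [coeff_add, coeff_X_pow]
      rw [if_neg, if_neg]
      · norm_num
      · rintro rfl
        exact absurd hj (by decide)
      · rintro rfl
        exact absurd hj (by decide)
    have z3 : (X ^ 4 : ℝ[X]).coeff j = 0 := by
      simp only [coeff_X_pow]
      rw [if_neg]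
      rintro rfl
      exact absurd hj (by decide)
    rw [z1, z2, z3, q4, q5]
    ring

end Pool.Agent.MP_fe2d2a_anF
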