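import Mathlib
import Pool.Agent.Lib.MP_fe2d2a_anF.Frame
import Pool.Agent.Lib.MP_fe2d2a_anLP.Seven

/-!
Groups of seven factors.
-/

set_option autoImplicit false

open Finset Polynomial

namespace Pool.Agent.MP_fe2d2a_anF

open Pool.Agent.MP_fe2d2a_anR Pool.Agent.MP_fe2d2a_anP Pool.Agent.MP_fe2d2a_anEC

variable {ι : Type*} [DecidableEq ι]

/-- The sum of two squares. -/
lemma seven_sq (x0 x1 x2 x3 y0 y1 y2 y3 : ℝ) :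
    (C x0 * ((X : ℝ[X]) ^ 7 - 1) + C x1 * ((X : ℝ[X]) ^ 6 - X) + C x2 * ((X : ℝ[X]) ^ 5 - X ^ 2) + C x3 * ((X : ℝ[X]) ^ 4 - X ^ 3)) ^ 2 +
      (C y0 * ((X : ℝ[X]) ^ 7 + 1) + C y1 * ((X : ℝ[X]) ^ 6 + X) + C y2 * ((X : ℝ[X]) ^ 5 + X ^ 2) + C y3 * ((X : ℝ[X]) ^ 4 + X ^ 3)) ^ 2 =
    C (x0 ^ 2 + y0 ^ 2) * (X ^ 14 + 1) +
      C (2 * (x0 * x1) + 2 * (y0 * y1)) * (X ^ 13 + X) +
      C (2 * (x0 * x2) + x1 ^ 2 + 2 * (y0 * y2) + y1 ^ 2) * (X ^ 12 + X ^ 2) +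
      C (2 * (x0 * x3) + 2 * (x1 * x2) + 2 * (y0 * y3) + 2 * (y1 * y2)) * (X ^ 11 + X ^ 3) +
      C (2 * (x1 * x3) + x2 ^ 2 + 2 * (y0 * y3) + 2 * (y1 * y3) + y2 ^ 2 - 2 * (x0 * x3)) * (X ^ 10 + X ^ 4) +
      C (2 * (x2 * x3) + 2 * (y0 * y2) + 2 * (y1 * y3) + 2 * (y2 * y3) - 2 * (x0 * x2) - 2 * (x1 * x3)) * (X ^ 9 + X ^ 5) +
      C (x3 ^ 2 + 2 * (y0 * y1) + 2 * (y1 * y2) + 2 * (y2 * y3) + y3 ^ 2 - 2 * (x0 * x1) - 2 * (x1 * x2) - 2 * (x2 * x3)) * (X ^ 8 + X ^ 6) +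
      C (2 * (y0 ^ 2) + 2 * (y1 ^ 2) + 2 * (y2 ^ 2) + 2 * (y3 ^ 2) - 2 * (x0 ^ 2) - 2 * (x1 ^ 2) - 2 * (x2 ^ 2) - 2 * (x3 ^ 2)) * X ^ 7 := by
  simp only [C_mul, C_add, C_sub, C_neg, C_pow, map_ofNat]
  ring

/-- The Wronskian. -/
lemma seven_wr (x0 x1 x2 x3 y0 y1 y2 y3 : ℝ) :
    derivative (C x0 * ((X : ℝ[X]) ^ 7 - 1) + C x1 * ((X : ℝ[X]) ^ 6 - X) + C x2 * ((X : ℝ[X]) ^ 5 - X ^ 2) + C x3 * ((X : ℝ[X]) ^ 4 - X ^ 3)) *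
      (C y0 * ((X : ℝ[X]) ^ 7 + 1) + C y1 * ((X : ℝ[X]) ^ 6 + X) + C y2 * ((X : ℝ[X]) ^ 5 + X ^ 2) + C y3 * ((X : ℝ[X]) ^ 4 + X ^ 3)) -
      (C x0 * ((X : ℝ[X]) ^ 7 - 1) + C x1 * ((X : ℝ[X]) ^ 6 - X) + C x2 * ((X : ℝ[X]) ^ 5 - X ^ 2) + C x3 * ((X : ℝ[X]) ^ 4 - X ^ 3)) *
      derivative (C y0 * ((X : ℝ[X]) ^ 7 + 1) + C y1 * ((X : ℝ[X]) ^ 6 + X) + C y2 * ((X : ℝ[X]) ^ 5 + X ^ 2) + C y3 * ((X : ℝ[X]) ^ 4 + X ^ 3)) =
    C (x0 * y1 - x1 * y0) * (X ^ 12 + 1) +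
      C (2 * (x0 * y2) - 2 * (x2 * y0)) * (X ^ 11 + X) +
      C (3 * (x0 * y3) + x1 * y2 - x2 * y1 - 3 * (x3 * y0)) * (X ^ 10 + X ^ 2) +
      C (4 * (x0 * y3) + 2 * (x1 * y3) + 4 * (x3 * y0) - 2 * (x3 * y1)) * (X ^ 9 + X ^ 3) +
      C (5 * (x0 * y2) + 3 * (x1 * y3) + 5 * (x2 * y0) + x2 * y3 + 3 * (x3 * y1) - x3 * y2) * (X ^ 8 + X ^ 4) +
      C (6 * (x0 * y1) + 6 * (x1 * y0) + 4 * (x1 * y2) + 4 * (x2 * y1) + 2 * (x2 * y3) + 2 * (x3 * y2)) * (X ^ 7 + X ^ 5) +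
      C (14 * (x0 * y0) + 10 * (x1 * y1) + 6 * (x2 * y2) + 2 * (x3 * y3)) * X ^ 6 := by
  simp only [derivative_add, derivative_sub, derivative_mul, derivative_C, derivative_X_pow,
    derivative_X, derivative_one, zero_mul, zero_add, C_mul, C_add, C_sub, C_neg, map_ofNat,
    Nat.cast_ofNat]
  ring

/-- The middle inequalities. -/
lemma seven_mid (b : ι → ℝ) (A : Finset ι) (ha : ∀ k ∈ A, 0 < b k ∧ b k < Real.pi)
    (hcard : A.card = 7) : Mid b A := by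
  intro hc hw h0 h1 i hi1 hi2
  obtain ⟨q, hq, hE⟩ := newton (fun k => Real.cos (b k / 2)) (fun k => Real.sin (b k / 2)) A
    (fun k hk => Real.cos_pos_of_mem_Ioo ⟨by linarith [(ha k hk).1, Real.pi_pos],
      by linarith [(ha k hk).2]⟩)
    (fun k hk => Real.sin_pos_of_pos_of_lt_pi (by linarith [(ha k hk).1])
      (by linarith [(ha k hk).1, (ha k hk).2]))
  rw [hcard] at hq hE hc hw hi2
  have P0 : 0 < q 1 := hq.pos 0 (by norm_num)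
  have P1 : 0 < q 2 := hq.pos 1 (by norm_num)
  have P2 : 0 < q 3 := hq.pos 2 (by norm_num)
  have P3 : 0 < q 4 := hq.pos 3 (by norm_num)
  have P4 : 0 < q 5 := hq.pos 4 (by norm_num)
  have P5 : 0 < q 6 := hq.pos 5 (by norm_num)
  have P6 : 0 < q 7 := hq.pos 6 (by norm_num)
  have P7 : 0 < q 8 := hq.pos 7 (by norm_num)
  have L1 : q 1 * q 3 ≤ q 2 ^ 2 := hq.lc 1
  have L2 : q 2 * q 4 ≤ q 3 ^ 2 := hq.lc 2
  have L3 : q 3 * q 5 ≤ q 4 ^ 2 := hq.lc 3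
  have L4 : q 4 * q 6 ≤ q 5 ^ 2 := hq.lc 4
  have L5 : q 5 * q 7 ≤ q 6 ^ 2 := hq.lc 5
  have L6 : q 6 * q 8 ≤ q 7 ^ 2 := hq.lc 6
  obtain ⟨x0, x1, x2, x3, y0, y1, y2, y3, f0, f1, f2, f3, g0, g1, g2, g3⟩ : ∃ x0 x1 x2 x3 y0 y1 y2 y3 : ℝ,
      x0 = q 1 - 21 * q 3 + 35 * q 5 - 7 * q 7 ∧
      x1 = -7 * q 1 + 63 * q 3 + 35 * q 5 - 35 * q 7 ∧
      x2 = 21 * q 1 - 21 * q 3 - 105 * q 5 - 63 * q 7 ∧
      x3 = -35 * q 1 - 105 * q 3 - 105 * q 5 - 35 * q 7 ∧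
      y0 = 7 * q 2 - 35 * q 4 + 21 * q 6 - q 8 ∧
      y1 = -35 * q 2 + 35 * q 4 + 63 * q 6 - 7 * q 8 ∧
      y2 = 63 * q 2 + 105 * q 4 + 21 * q 6 - 21 * q 8 ∧
      y3 = -35 * q 2 - 105 * q 4 - 105 * q 6 - 35 * q 8 :=
    ⟨_, _, _, _, _, _, _, _, rfl, rfl, rfl, rfl, rfl, rfl, rfl, rfl⟩
  have i2 : Complex.I ^ 2 = -1 := Complex.I_sq
  have i3 : Complex.I ^ 3 = -Complex.I := by rw [pow_succ, i2]; ring
  have i4 : Complex.I ^ 4 = 1 := by rw [pow_succ, i3]; linear_combination -i2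
  have i5 : Complex.I ^ 5 = Complex.I := by rw [pow_succ, i4, one_mul]
  have i6 : Complex.I ^ 6 = -1 := by rw [pow_succ, i5]; linear_combination i2
  have i7 : Complex.I ^ 7 = -Complex.I := by rw [pow_succ, i6]; ring
  have hF : ∀ x : ℝ, FF b A x =
      (((C x0 * ((X : ℝ[X]) ^ 7 - 1) + C x1 * ((X : ℝ[X]) ^ 6 - X) + C x2 * ((X : ℝ[X]) ^ 5 - X ^ 2) + C x3 * ((X : ℝ[X]) ^ 4 - X ^ 3)).eval x : ℝ) : ℂ) +
      (((C y0 * ((X : ℝ[X]) ^ 7 + 1) + C y1 * ((X : ℝ[X]) ^ 6 + X) + C y2 * ((X : ℝ[X]) ^ 5 + X ^ 2) + C y3 * ((X : ℝ[X]) ^ 4 + X ^ 3)).eval x : ℝ) : ℂ) *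
        Complex.I := by
    intro x
    rw [FF_eq_sum, hcard]
    simp only [Finset.sum_range_succ, Finset.sum_range_zero, hE]
    have b0 : Nat.choose 7 0 = 1 := rfl
    have b1 : Nat.choose 7 1 = 7 := rfl
    have b2 : Nat.choose 7 2 = 21 := rfl
    have b3 : Nat.choose 7 3 = 35 := rfl
    have b4 : Nat.choose 7 4 = 35 := rfl
    have b5 : Nat.choose 7 5 = 21 := rfl
    have b6 : Nat.choose 7 6 = 7 := rfl
    have b7 : Nat.choose 7 7 = 1 := rfl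
    simp only [b0, b1, b2, b3, b4, b5, b6, b7, mul_pow, i2, i3, i4, i5, i6, i7, pow_zero, pow_one, eval_add,
      eval_sub, eval_mul, eval_C, eval_pow, eval_X, eval_one, f0, f1, f2, f3, g0, g1, g2, g3]
    push_cast
    ring
  obtain ⟨hP, hW⟩ := frame b A _ _ hF
  rw [seven_sq] at hP
  rw [seven_wr] at hW
  rw [hP] at hc
  clear hP hF hE
  have C1 := hc 1 (by norm_num)
  have C2 := hc 2 (by norm_num)
  have C3 := hc 3 (by norm_num)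
  have C4 := hc 4 (by norm_num)
  have C5 := hc 5 (by norm_num)
  have C6 := hc 6 (by norm_num)
  have C7 := hc 7 (by norm_num)
  clear hc
  simp only [coeff_add, coeff_C_mul, coeff_X_pow, coeff_X, coeff_one] at C1 C2 C3 C4 C5 C6 C7
  norm_num at C1 C2 C3 C4 C5 C6 C7
  have V0 := hW 0
  have V1 := hW 1
  have V2 := hW 2
  have V3 := hW 3
  have V4 := hW 4
  have V5 := hW 5
  have V6 := hW 6
  clear hW
  simp only [coeff_add, coeff_C_mul, coeff_X_pow, coeff_X, coeff_one] at V0 V1 V2 V3 V4 V5 V6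
  norm_num at V0 V1 V2 V3 V4 V5 V6
  have w2 := hw 2 (by norm_num)
  have w3 := hw 3 (by norm_num)
  have w4 := hw 4 (by norm_num)
  have w5 := hw 5 (by norm_num)
  have w6 := hw 6 (by norm_num)
  rw [V2] at w2
  rw [V3] at w3
  rw [V4] at w4
  rw [V5] at w5
  rw [V6] at w6
  rw [V0] at h0
  rw [V1] at h1
  have hi3 : i ≤ 6 := by omega
  subst f0 f1 f2 f3 g0 g1 g2 g3
  have K := Pool.Agent.Lib.MP_fe2d2a_anLP.seven_alg (q 1) (q 2) (q 3) (q 4) (q 5) (q 6) (q 7) (q 8)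
    P0 P1 P2 P3 P4 P5 P6 P7 L1 L2 L3 L4 L5 L6
    (by linarith only [C1]) (by linarith only [C2]) (by linarith only [C3]) (by linarith only [C4]) (by linarith only [C5]) (by linarith only [C6]) (by linarith only [C7])
    (by linarith only [h0]) (by linarith only [h1]) (by linarith only [w2]) (by linarith only [w3]) (by linarith only [w4]) (by linarith only [w5]) (by linarith only [w6])
  obtain ⟨K2, K3, K4, K5, K6⟩ := K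
  interval_cases i
  · rw [V2]
    linarith only [K2]
  · rw [V3]
    linarith only [K3]
  · rw [V4]
    linarith only [K4]
  · rw [V5]
    linarith only [K5]
  · rw [V6]
    linarith only [K6]

/-- The block. -/
lemma seven_block (a : ι → ℝ) (A : Finset ι) (ha : ∀ k ∈ A, 0 < a k ∧ a k < Real.pi)
    (hpos : ∀ j, 0 ≤ (RP a A 0).coeff j) (hcard : A.card = 7) :
    ∃ ε > (0 : ℝ), ∀ j, MonotoneOn (fun t : ℝ => (RP a A t).coeff j) (Set.Icc 0 ε) := by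
  apply block_of_mid a A ha hpos
  intro b hb
  exact seven_mid b A (fun k hk => ⟨(ha k hk).1.trans_le (hb k hk).1, (hb k hk).2⟩) hcard

end Pool.Agent.MP_fe2d2a_anF
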