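import Mathlib
import Pool.Agent.Lib.MP_fe2d2a_anF.Frame
import Pool.Agent.Lib.MP_fe2d2a_anEV6.Alg
import Pool.Agent.Lib.MP_fe2d2a_anEV6.Five

/-!
Groups of six factors.
-/

set_option autoImplicit false

open Finset Polynomial

namespace Pool.Agent.MP_fe2d2a_anF

open Pool.Agent.MP_fe2d2a_anR Pool.Agent.MP_fe2d2a_anP Pool.Agent.MP_fe2d2a_anEC

variable {ι : Type*} [DecidableEq ι]

/-- The sum of two squares. -/
lemma six_sq (x0 x1 x2 x3 y0 y1 y2 : ℝ) :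
    (C x0 * ((X : ℝ[X]) ^ 6 + 1) + C x1 * ((X : ℝ[X]) ^ 5 + X) + C x2 * ((X : ℝ[X]) ^ 4 + X ^ 2) + C x3 * (X : ℝ[X]) ^ 3) ^ 2 +
      (C y0 * ((X : ℝ[X]) ^ 6 - 1) + C y1 * ((X : ℝ[X]) ^ 5 - X) + C y2 * ((X : ℝ[X]) ^ 4 - X ^ 2)) ^ 2 =
    C (x0 ^ 2 + y0 ^ 2) * (X ^ 12 + 1) +
      C (2 * (x0 * x1) + 2 * (y0 * y1)) * (X ^ 11 + X) +
      C (2 * (x0 * x2) + x1 ^ 2 + 2 * (y0 * y2) + y1 ^ 2) * (X ^ 10 + X ^ 2) +
      C (2 * (x0 * x3) + 2 * (x1 * x2) + 2 * (y1 * y2)) * (X ^ 9 + X ^ 3) +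
      C (2 * (x0 * x2) + 2 * (x1 * x3) + x2 ^ 2 + y2 ^ 2 - 2 * (y0 * y2)) * (X ^ 8 + X ^ 4) +
      C (2 * (x0 * x1) + 2 * (x1 * x2) + 2 * (x2 * x3) - 2 * (y0 * y1) - 2 * (y1 * y2)) * (X ^ 7 + X ^ 5) +
      C (2 * (x0 ^ 2) + 2 * (x1 ^ 2) + 2 * (x2 ^ 2) + x3 ^ 2 - 2 * (y0 ^ 2) - 2 * (y1 ^ 2) - 2 * (y2 ^ 2)) * X ^ 6 := by
  simp only [C_mul, C_add, C_sub, C_neg, C_pow, map_ofNat]
  ring

/-- The Wronskian. -/
lemma six_wr (x0 x1 x2 x3 y0 y1 y2 : ℝ) :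
    derivative (C x0 * ((X : ℝ[X]) ^ 6 + 1) + C x1 * ((X : ℝ[X]) ^ 5 + X) + C x2 * ((X : ℝ[X]) ^ 4 + X ^ 2) + C x3 * (X : ℝ[X]) ^ 3) *
      (C y0 * ((X : ℝ[X]) ^ 6 - 1) + C y1 * ((X : ℝ[X]) ^ 5 - X) + C y2 * ((X : ℝ[X]) ^ 4 - X ^ 2)) -
      (C x0 * ((X : ℝ[X]) ^ 6 + 1) + C x1 * ((X : ℝ[X]) ^ 5 + X) + C x2 * ((X : ℝ[X]) ^ 4 + X ^ 2) + C x3 * (X : ℝ[X]) ^ 3) *
      derivative (C y0 * ((X : ℝ[X]) ^ 6 - 1) + C y1 * ((X : ℝ[X]) ^ 5 - X) + C y2 * ((X : ℝ[X]) ^ 4 - X ^ 2)) =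
    C (x0 * y1 - x1 * y0) * (X ^ 10 + 1) +
      C (2 * (x0 * y2) - 2 * (x2 * y0)) * (X ^ 9 + X) +
      C (x1 * y2 - x2 * y1 - 3 * (x3 * y0)) * (X ^ 8 + X ^ 2) +
      C (-(4 * (x0 * y2)) - 4 * (x2 * y0) - 2 * (x3 * y1)) * (X ^ 7 + X ^ 3) +
      C (-(5 * (x0 * y1)) - 5 * (x1 * y0) - 3 * (x1 * y2) - 3 * (x2 * y1) - x3 * y2) * (X ^ 6 + X ^ 4) +
      C (-(12 * (x0 * y0)) - 8 * (x1 * y1) - 4 * (x2 * y2)) * X ^ 5 := by
  simp only [derivative_add, derivative_sub, derivative_mul, derivative_C, derivative_X_pow,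
    derivative_X, derivative_one, zero_mul, zero_add, C_mul, C_add, C_sub, C_neg, map_ofNat,
    Nat.cast_ofNat]
  ring

/-- The middle inequalities. -/
lemma six_mid (b : ι → ℝ) (A : Finset ι) (ha : ∀ k ∈ A, 0 < b k ∧ b k < Real.pi)
    (hcard : A.card = 6) : Mid b A := by
  intro hc hw h0 h1 i hi1 hi2
  obtain ⟨q, hq, hE⟩ := newton (fun k => Real.cos (b k / 2)) (fun k => Real.sin (b k / 2)) A
    (fun k hk => Real.cos_pos_of_mem_Ioo ⟨by linarith [(ha k hk).1, Real.pi_pos],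
      by linarith [(ha k hk).2]⟩)
    (fun k hk => Real.sin_pos_of_pos_of_lt_pi (by linarith [(ha k hk).1])
      (by linarith [(ha k hk).1, (ha k hk).2]))
  rw [hcard] at hq hE hc hw hi2
  have P0 : 0 < q 1 := hq.pos 0 (by norm_num)
  have P1 : 0 < q 2 := hq.pos 1 (by norm_num)
  have P2 : 0 < q 3 := hq.pos 2 (by norm_num)
  have P3 : 0 < q 4 := hq.pos 3 (by norm_num)
  have P4 : 0 < q 5 := hq.pos 4 (by norm_num)
  have P5 : 0 < q 6 := hq.pos 5 (by norm_num)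
  have P6 : 0 < q 7 := hq.pos 6 (by norm_num)
  have L1 : q 1 * q 3 ≤ q 2 ^ 2 := hq.lc 1
  have L2 : q 2 * q 4 ≤ q 3 ^ 2 := hq.lc 2
  have L3 : q 3 * q 5 ≤ q 4 ^ 2 := hq.lc 3
  have L4 : q 4 * q 6 ≤ q 5 ^ 2 := hq.lc 4
  have L5 : q 5 * q 7 ≤ q 6 ^ 2 := hq.lc 5
  obtain ⟨x0, x1, x2, x3, y0, y1, y2, f0, f1, f2, f3, g0, g1, g2⟩ : ∃ x0 x1 x2 x3 y0 y1 y2 : ℝ,
      x0 = q 1 - 15 * q 3 + 15 * q 5 - q 7 ∧
      x1 = -6 * q 1 + 30 * q 3 + 30 * q 5 - 6 * q 7 ∧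
      x2 = 15 * q 1 + 15 * q 3 - 15 * q 5 - 15 * q 7 ∧
      x3 = -20 * q 1 - 60 * q 3 - 60 * q 5 - 20 * q 7 ∧
      y0 = 6 * q 2 - 20 * q 4 + 6 * q 6 ∧
      y1 = -24 * q 2 + 24 * q 6 ∧
      y2 = 30 * q 2 + 60 * q 4 + 30 * q 6 :=
    ⟨_, _, _, _, _, _, _, rfl, rfl, rfl, rfl, rfl, rfl, rfl⟩
  have i2 : Complex.I ^ 2 = -1 := Complex.I_sq
  have i3 : Complex.I ^ 3 = -Complex.I := by rw [pow_succ, i2]; ring
  have i4 : Complex.I ^ 4 = 1 := by rw [pow_succ, i3]; linear_combination -i2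
  have i5 : Complex.I ^ 5 = Complex.I := by rw [pow_succ, i4, one_mul]
  have i6 : Complex.I ^ 6 = -1 := by rw [pow_succ, i5]; linear_combination i2
  have hF : ∀ x : ℝ, FF b A x =
      (((C x0 * ((X : ℝ[X]) ^ 6 + 1) + C x1 * ((X : ℝ[X]) ^ 5 + X) + C x2 * ((X : ℝ[X]) ^ 4 + X ^ 2) + C x3 * (X : ℝ[X]) ^ 3).eval x : ℝ) : ℂ) +
      (((C y0 * ((X : ℝ[X]) ^ 6 - 1) + C y1 * ((X : ℝ[X]) ^ 5 - X) + C y2 * ((X : ℝ[X]) ^ 4 - X ^ 2)).eval x : ℝ) : ℂ) *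
        Complex.I := by
    intro x
    rw [FF_eq_sum, hcard]
    simp only [Finset.sum_range_succ, Finset.sum_range_zero, hE]
    have b0 : Nat.choose 6 0 = 1 := rfl
    have b1 : Nat.choose 6 1 = 6 := rfl
    have b2 : Nat.choose 6 2 = 15 := rfl
    have b3 : Nat.choose 6 3 = 20 := rfl
    have b4 : Nat.choose 6 4 = 15 := rfl
    have b5 : Nat.choose 6 5 = 6 := rfl
    have b6 : Nat.choose 6 6 = 1 := rfl
    simp only [b0, b1, b2, b3, b4, b5, b6, mul_pow, i2, i3, i4, i5, i6, pow_zero, pow_one, eval_add,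
      eval_sub, eval_mul, eval_C, eval_pow, eval_X, eval_one, f0, f1, f2, f3, g0, g1, g2]
    push_cast
    ring
  obtain ⟨hP, hW⟩ := frame b A _ _ hF
  rw [six_sq] at hP
  rw [six_wr] at hW
  rw [hP] at hc
  clear hP hF hE
  have C1 := hc 1 (by norm_num)
  have C2 := hc 2 (by norm_num)
  have C3 := hc 3 (by norm_num)
  have C4 := hc 4 (by norm_num)
  have C5 := hc 5 (by norm_num)
  have C6 := hc 6 (by norm_num)
  clear hc
  simp only [coeff_add, coeff_C_mul, coeff_X_pow, coeff_X, coeff_one] at C1 C2 C3 C4 C5 C6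
  norm_num at C1 C2 C3 C4 C5 C6
  have V0 := hW 0
  have V1 := hW 1
  have V2 := hW 2
  have V3 := hW 3
  have V4 := hW 4
  have V5 := hW 5
  clear hW
  simp only [coeff_add, coeff_C_mul, coeff_X_pow, coeff_X, coeff_one] at V0 V1 V2 V3 V4 V5
  norm_num at V0 V1 V2 V3 V4 V5
  have w2 := hw 2 (by norm_num)
  have w3 := hw 3 (by norm_num)
  have w4 := hw 4 (by norm_num)
  have w5 := hw 5 (by norm_num)
  rw [V2] at w2
  rw [V3] at w3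
  rw [V4] at w4
  rw [V5] at w5
  rw [V0] at h0
  rw [V1] at h1
  have hi3 : i ≤ 5 := by omega
  subst f0 f1 f2 f3 g0 g1 g2
  have K := Pool.Agent.Lib.MP_fe2d2a_anEV6.six_alg (q 1) (q 2) (q 3) (q 4) (q 5) (q 6) (q 7)
    P0 P1 P2 P3 P4 P5 P6 L1 L2 L3 L4 L5
    (by linarith only [C1]) (by linarith only [C2]) (by linarith only [C3]) (by linarith only [C4]) (by linarith only [C5]) (by linarith only [C6])
    (by linarith only [h0]) (by linarith only [h1]) (by linarith only [w2]) (by linarith only [w3]) (by linarith only [w4]) (by linarith only [w5])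
  obtain ⟨K2, K3, K4⟩ := K
  have K := Pool.Agent.Lib.MP_fe2d2a_anEV6.six_five (q 1) (q 2) (q 3) (q 4) (q 5) (q 6) (q 7)
    P0 P1 P2 P3 P4 P5 P6 L1 L2 L3 L4 L5
    (by linarith only [C1]) (by linarith only [C2]) (by linarith only [C3]) (by linarith only [C4]) (by linarith only [C5]) (by linarith only [C6])
    (by linarith only [h0]) (by linarith only [h1]) (by linarith only [w2]) (by linarith only [w3]) (by linarith only [w4])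
  have K5 := K
  clear K
  interval_cases i
  · rw [V2]
    linarith only [K2]
  · rw [V3]
    linarith only [K3]
  · rw [V4]
    linarith only [K4]
  · rw [V5]
    linarith only [K5]

/-- The block. -/
lemma six_block (a : ι → ℝ) (A : Finset ι) (ha : ∀ k ∈ A, 0 < a k ∧ a k < Real.pi)
    (hpos : ∀ j, 0 ≤ (RP a A 0).coeff j) (hcard : A.card = 6) :
    ∃ ε > (0 : ℝ), ∀ j, MonotoneOn (fun t : ℝ => (RP a A t).coeff j) (Set.Icc 0 ε) := by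
  apply block_of_mid a A ha hpos
  intro b hb
  exact six_mid b A (fun k hk => ⟨(ha k hk).1.trans_le (hb k hk).1, (hb k hk).2⟩) hcard

end Pool.Agent.MP_fe2d2a_anF
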